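import Pool.Agent.H921R2.LEC.Defs

set_option autoImplicit false

/-! F1: orbit counting modulo `p^2`. -/

namespace Pool.Agent.H921R2.LEC

open Equiv Equiv.Perm Finset

namespace CircA

/-- free actions: the sum of an invariant weight is divisible by the group order -/
theorem dvd_card_of_free {A Ω : Type} [Group A] [Fintype A] [Fintype Ω] [DecidableEq Ω]
    (φ : A →* Perm Ω) (S : Finset Ω) (hS : ∀ a, ∀ x ∈ S, φ a x ∈ S)
    (hfree : ∀ x ∈ S, ∀ a, φ a x = x → a = 1) : Fintype.card A ∣ S.card := by
  classical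
  let _ : MulAction A Ω := MulAction.compHom Ω φ
  let T : SubMulAction A Ω := { carrier := (S : Set Ω), smul_mem' := fun a x hx => hS a x hx }
  have hst : ∀ b : T, MulAction.stabilizer A b = ⊥ := by
    intro b
    rw [eq_bot_iff]
    intro a ha
    rw [MulAction.mem_stabilizer_iff] at ha
    have h1 : φ a (b : Ω) = b := congrArg (fun z : T => (z : Ω)) ha
    exact hfree b b.2 a h1
  have e := MulAction.selfEquivOrbitsQuotientProd hst
  have hc : Nat.card T = Nat.card (Quotient (MulAction.orbitRel A T)) * Nat.card A := by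
    rw [Nat.card_congr e, Nat.card_prod]
  have hT : Nat.card T = S.card := by
    have : Nat.card T = Nat.card (S : Set Ω) := rfl
    rw [this]
    simp
  rw [← hT, hc, Nat.card_eq_fintype_card (α := A)]
  exact Dvd.intro_left _ rfl

theorem dvd_sum_of_free {A Ω : Type} [Group A] [Fintype A] [Fintype Ω] [DecidableEq Ω]
    (φ : A →* Perm Ω) (W : Ω → ℤ) (S : Finset Ω) (hS : ∀ a, ∀ x ∈ S, φ a x ∈ S)
    (hW : ∀ a, ∀ x, W (φ a x) = W x)
    (hfree : ∀ x ∈ S, ∀ a, φ a x = x → a = 1) : (Fintype.card A : ℤ) ∣ ∑ x ∈ S, W x := by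
  classical
  have h := Finset.sum_comp (s := S) (fun z : ℤ => z) W
  rw [h]
  apply Finset.dvd_sum
  intro b _
  have h2 : Fintype.card A ∣ (S.filter (fun a => W a = b)).card := by
    apply dvd_card_of_free φ
    · intro a x hx
      rw [Finset.mem_filter] at hx ⊢
      exact ⟨hS a x hx.1, by rw [hW]; exact hx.2⟩
    · intro x hx
      rw [Finset.mem_filter] at hx
      exact hfree x hx.1
  rw [nsmul_eq_mul]
  exact Dvd.dvd.mul_right (by exact_mod_cast h2) _

variable {p : ℕ}

def rotA (a : ZMod p) : Perm (ZMod p × Bool) where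
  toFun x := (x.1 + a, x.2)
  invFun x := (x.1 - a, x.2)
  left_inv x := by simp
  right_inv x := by simp

def rotK (k : ZMod p) : Perm (ZMod p × Bool) where
  toFun x := if x.2 = false then (x.1 + k, false) else x
  invFun x := if x.2 = false then (x.1 - k, false) else x
  left_inv x := by rcases x with ⟨x, b⟩; cases b <;> simp
  right_inv x := by rcases x with ⟨x, b⟩; cases b <;> simp

theorem rotA_apply (a : ZMod p) (x : ZMod p × Bool) : rotA a x = (x.1 + a, x.2) := rfl

theorem rotK_false (k t : ZMod p) : rotK k (t, false) = (t + k, false) := by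
  simp [rotK]

theorem rotK_true (k t : ZMod p) : rotK k (t, true) = (t, true) := by
  simp [rotK]

theorem rotA_add (a b : ZMod p) : rotA (a + b) = rotA a * rotA b := by
  ext x <;> simp [rotA_apply, add_assoc, add_comm a b]

theorem rotA_zero : rotA (0 : ZMod p) = 1 := by
  ext x <;> simp [rotA_apply]

theorem rotK_add (a b : ZMod p) : rotK (a + b) = rotK a * rotK b := by
  apply Equiv.ext
  rintro ⟨t, b'⟩
  cases b'
  · simp [rotK_false, add_assoc, add_comm a b]
  · simp [rotK_true]

theorem rotK_zero : rotK (0 : ZMod p) = 1 := by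
  apply Equiv.ext
  rintro ⟨t, b'⟩
  cases b'
  · simp [rotK_false]
  · simp [rotK_true]

abbrev Om (p : ℕ) : Type := ZMod p × Bool → Perm (ZMod p × Bool)

/-- the action -/
def actF (a k : ZMod p) (L : Om p) : Om p := fun v => rotK k * L (rotA (-a) v) * rotA (-a)

theorem actF_apply (a k : ZMod p) (L : Om p) (v u : ZMod p × Bool) :
    actF a k L v u = rotK k (L (rotA (-a) v) (rotA (-a) u)) := rfl

theorem actF_add (a k a' k' : ZMod p) (L : Om p) :
    actF (a + a') (k + k') L = actF a k (actF a' k' L) := by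
  funext v
  apply Equiv.ext
  intro u
  rw [actF_apply, actF_apply, actF_apply, rotK_add]
  have h : rotA (-(a + a')) = rotA (-a') * rotA (-a) := by rw [← rotA_add]; congr 1; ring
  rw [h]
  rfl

theorem actF_zero (L : Om p) : actF 0 0 L = L := by
  funext v
  apply Equiv.ext
  intro u
  rw [actF_apply, neg_zero, rotK_zero, rotA_zero]
  rfl

def phi (p : ℕ) : Multiplicative (ZMod p × ZMod p) →* Perm (Om p) where
  toFun m :=
    { toFun := actF m.toAdd.1 m.toAdd.2
      invFun := actF (-m.toAdd.1) (-m.toAdd.2)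
      left_inv := fun L => by rw [← actF_add]; simp [actF_zero]
      right_inv := fun L => by rw [← actF_add]; simp [actF_zero] }
  map_one' := by
    apply Equiv.ext
    intro L
    exact actF_zero L
  map_mul' := by
    intro m m'
    apply Equiv.ext
    intro L
    exact actF_add _ _ _ _ L

theorem phi_apply (m : Multiplicative (ZMod p × ZMod p)) (L : Om p) :
    phi p m L = actF m.toAdd.1 m.toAdd.2 L := rfl

theorem phi_ofAdd (a k : ZMod p) (L : Om p) :
    phi p (Multiplicative.ofAdd (a, k)) L = actF a k L := rfl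

theorem fix_nsmul (n : ℕ) (a k : ZMod p) (L : Om p) (h : actF a k L = L) :
    actF ((n : ZMod p) * a) ((n : ZMod p) * k) L = L := by
  induction n with
  | zero => simp [actF_zero]
  | succ n ih =>
    have : actF (((n + 1 : ℕ) : ZMod p) * a) (((n + 1 : ℕ) : ZMod p) * k) L
        = actF ((n : ZMod p) * a) ((n : ZMod p) * k) (actF a k L) := by
      rw [← actF_add]
      congr 1 <;> push_cast <;> ring
    rw [this, h, ih]

theorem fix_mul [NeZero p] (c a k : ZMod p) (L : Om p) (h : actF a k L = L) :
    actF (c * a) (c * k) L = L := by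
  have := fix_nsmul c.val a k L h
  simpa using this

theorem fix_sub (a k a' k' : ZMod p) (L : Om p) (h : actF a k L = L) (h' : actF a' k' L = L) :
    actF (a - a') (k - k') L = L := by
  have h2 : actF (-a') (-k') L = L := by
    have : actF (-a') (-k') (actF a' k' L) = L := by
      rw [← actF_add]; simp [actF_zero]
    rw [h'] at this
    exact this
  have h3 := actF_add a k (-a') (-k') L
  rw [← sub_eq_add_neg, ← sub_eq_add_neg, h2, h] at h3
  exact h3


/-- the families -/
def PP (p : ℕ) (D : Finset (ZMod p)) (d0 : ZMod p) (L : Om p) : Prop :=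
  (∀ v u, L v u = L u v) ∧ (∀ v u, ¬ (gD p D).Adj v u → L v u = gGam p d0 v u)

/-- the weight -/
noncomputable def W [NeZero p] (L : Om p) : ℤ := ∏ v, ((sign (L v) : ℤˣ) : ℤ)

theorem adj_rot (D : Finset (ZMod p)) (a : ZMod p) (v u : ZMod p × Bool) :
    (gD p D).Adj (rotA a v) (rotA a u) ↔ (gD p D).Adj v u := by
  have h1 : rotA a v ≠ rotA a u ↔ v ≠ u := (rotA a).injective.ne_iff
  simp only [gD, rotA_apply] at *
  rw [h1]
  simp [add_sub_add_right_eq_sub]

theorem gam_rot (d0 a : ZMod p) (v u : ZMod p × Bool) :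
    gGam p d0 (rotA a v) (rotA a u) = gGam p d0 v u := by
  have h1 : rotA a v = rotA a u ↔ v = u := (rotA a).injective.eq_iff
  simp only [gGam, rotA_apply] at *
  simp only [h1, add_sub_add_right_eq_sub]

theorem gam_snd (d0 : ZMod p) (v u : ZMod p × Bool) : (gGam p d0 v u).2 = true := by
  unfold gGam
  split_ifs <;> rfl

theorem rotK_gam (k d0 : ZMod p) (v u : ZMod p × Bool) :
    rotK k (gGam p d0 v u) = gGam p d0 v u := by
  have h := gam_snd d0 v u
  rcases hg : gGam p d0 v u with ⟨t, b⟩
  rw [hg] at h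
  simp only at h
  subst h
  exact rotK_true k t

theorem PP_act {D : Finset (ZMod p)} {d0 : ZMod p} (a k : ZMod p) {L : Om p} (h : PP p D d0 L) :
    PP p D d0 (actF a k L) := by
  refine ⟨fun v u => ?_, fun v u hvu => ?_⟩
  · rw [actF_apply, actF_apply, h.1]
  · rw [actF_apply, h.2, gam_rot, rotK_gam]
    rwa [adj_rot]

theorem sq_pow (p : ℕ) [NeZero p] (u : ℤˣ) : u ^ Fintype.card (ZMod p × Bool) = 1 := by
  rw [Fintype.card_prod, Fintype.card_bool, mul_comm, pow_mul, Int.units_sq, one_pow]

theorem W_act [NeZero p] (a k : ZMod p) (L : Om p) : W (actF a k L) = W L := by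
  unfold W
  rw [← Units.coe_prod, ← Units.coe_prod]
  congr 1
  have h1 : ∀ v, sign (actF a k L v) = sign (rotK k) * sign (L (rotA (-a) v)) * sign (rotA (-a)) := by
    intro v
    unfold actF
    rw [Perm.sign_mul, Perm.sign_mul]
  rw [Finset.prod_congr rfl (fun v _ => h1 v), Finset.prod_mul_distrib, Finset.prod_mul_distrib,
    Finset.prod_const, Finset.prod_const, Finset.card_univ, sq_pow, sq_pow, one_mul, mul_one]
  exact Equiv.prod_comp (rotA (-a)) (fun v => sign (L v))

theorem no_fix_a [Fact p.Prime] (hp : p ≠ 2) {D : Finset (ZMod p)} {d0 : ZMod p} {L : Om p}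
    (h : PP p D d0 L) (a : ZMod p) (ha : actF a 0 L = L) : a = 0 := by
  have h1 : ∀ v u, L (rotA a v) (rotA a u) = L v u := by
    intro v u
    have h2 : actF a 0 L (rotA a v) (rotA a u) = L (rotA a v) (rotA a u) := by rw [ha]
    rw [actF_apply, rotK_zero] at h2
    have h3 : ∀ x, rotA (-a) (rotA a x) = x := by
      intro x
      have := congrArg (fun e : Perm (ZMod p × Bool) => e x) (rotA_add (-a) a)
      simp only [neg_add_cancel, rotA_zero] at this
      exact this.symm
    rw [h3, h3] at h2
    exact h2.symm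
  have h4 := h1 (0, false) (a, false)
  rw [h.1 (0, false) (a, false)] at h4
  simp only [rotA_apply, zero_add] at h4
  have h5 := (L (a, false)).injective h4
  have h6 : a + a = 0 := congrArg Prod.fst h5
  have h7 : (2 : ZMod p) * a = 0 := by rw [two_mul]; exact h6
  rcases mul_eq_zero.mp h7 with h8 | h8
  · exfalso
    have h9 : ((2 : ℕ) : ZMod p) = 0 := by exact_mod_cast h8
    rw [ZMod.natCast_eq_zero_iff] at h9
    exact hp ((Nat.prime_dvd_prime_iff_eq Fact.out Nat.prime_two).mp h9)
  · exact h8

theorem no_fix_k (k : ZMod p) (L : Om p) (hk : actF 0 k L = L) : k = 0 := by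
  have h1 : ∀ v u, rotK k (L v u) = L v u := by
    intro v u
    have h2 : actF 0 k L v u = L v u := by rw [hk]
    rw [actF_apply, neg_zero, rotA_zero] at h2
    exact h2
  obtain ⟨u, hu⟩ := (L (0, false)).surjective (0, false)
  have h3 := h1 (0, false) u
  rw [hu, rotK_false] at h3
  have := congrArg Prod.fst h3
  simpa using this

/-- multiplication of the colours `(t, false)` by a unit -/
def muC [Fact p.Prime] (c : ZMod p) (hc : c ≠ 0) : Perm (ZMod p × Bool) where
  toFun x := if x.2 = false then (c * x.1, false) else x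
  invFun x := if x.2 = false then (c⁻¹ * x.1, false) else x
  left_inv x := by rcases x with ⟨x, b⟩; cases b <;> simp [hc]
  right_inv x := by rcases x with ⟨x, b⟩; cases b <;> simp [hc]

theorem muC_false [Fact p.Prime] (c : ZMod p) (hc : c ≠ 0) (t : ZMod p) :
    muC c hc (t, false) = (c * t, false) := by simp [muC]

theorem muC_true [Fact p.Prime] (c : ZMod p) (hc : c ≠ 0) (t : ZMod p) :
    muC c hc (t, true) = (t, true) := by simp [muC]

theorem muC_gam [Fact p.Prime] (c : ZMod p) (hc : c ≠ 0) (d0 : ZMod p) (v u : ZMod p × Bool) :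
    muC c hc (gGam p d0 v u) = gGam p d0 v u := by
  have h := gam_snd d0 v u
  rcases hg : gGam p d0 v u with ⟨t, b⟩
  rw [hg] at h
  simp only at h
  subst h
  exact muC_true c hc t

theorem muC_rot [Fact p.Prime] (c : ZMod p) (hc : c ≠ 0) (b : ZMod p) (x : ZMod p × Bool) :
    muC c hc (rotK b x) = rotK (c * b) (muC c hc x) := by
  rcases x with ⟨t, b'⟩
  cases b'
  · rw [rotK_false, muC_false, muC_false, rotK_false, mul_add]
  · rw [rotK_true, muC_true, rotK_true]

theorem W_mu [Fact p.Prime] (m : Perm (ZMod p × Bool)) (L : Om p) :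
    W (fun v => m * L v) = W L := by
  unfold W
  rw [← Units.coe_prod, ← Units.coe_prod]
  congr 1
  simp only [Perm.sign_mul]
  rw [Finset.prod_mul_distrib, Finset.prod_const, Finset.card_univ, sq_pow, one_mul]

open Classical in
/-- the sum of the families fixed by `(a,1)` -/
noncomputable def Sa (p : ℕ) [NeZero p] (D : Finset (ZMod p)) (d0 : ZMod p) (a : ZMod p) : ℤ :=
  ∑ L ∈ (Finset.univ : Finset (Om p)).filter (fun L => PP p D d0 L ∧ actF a 1 L = L), W L

theorem PP_mu [Fact p.Prime] {D : Finset (ZMod p)} {d0 : ZMod p} (c : ZMod p) (hc : c ≠ 0)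
    {L : Om p} (h : PP p D d0 L) : PP p D d0 (fun v => muC c hc * L v) := by
  refine ⟨fun v u => ?_, fun v u hvu => ?_⟩
  · change muC c hc (L v u) = muC c hc (L u v)
    rw [h.1]
  · change muC c hc (L v u) = _
    rw [h.2 v u hvu, muC_gam]

theorem act_mu [Fact p.Prime] (c : ZMod p) (hc : c ≠ 0) (a b : ZMod p) (L : Om p) :
    actF a (c * b) (fun v => muC c hc * L v) = fun v => muC c hc * actF a b L v := by
  funext v
  apply Equiv.ext
  intro u
  rw [actF_apply]
  change rotK (c * b) (muC c hc (L (rotA (-a) v) (rotA (-a) u))) = muC c hc (actF a b L v u)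
  rw [actF_apply, muC_rot]

theorem Sa_eq [Fact p.Prime] (D : Finset (ZMod p)) (d0 a : ZMod p) (ha : a ≠ 0) :
    Sa p D d0 a = Sa p D d0 1 := by
  classical
  unfold Sa
  have hinv : (a⁻¹ : ZMod p) ≠ 0 := inv_ne_zero ha
  have hm : ∀ L : Om p, actF a 1 L = L ↔
      actF 1 1 (fun v => muC a ha * L v) = fun v => muC a ha * L v := by
    intro L
    have h1 : actF a 1 L = L ↔ actF 1 a⁻¹ L = L := by
      constructor
      · intro h
        have := fix_mul a⁻¹ a 1 L h
        rwa [inv_mul_cancel₀ ha, mul_one] at this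
      · intro h
        have := fix_mul a 1 a⁻¹ L h
        rwa [mul_inv_cancel₀ ha, mul_one] at this
    rw [h1]
    have h2 := act_mu a ha 1 a⁻¹ L
    rw [mul_inv_cancel₀ ha] at h2
    rw [h2]
    constructor
    · intro h
      rw [h]
    · intro h
      funext v
      have := congrFun h v
      exact mul_left_cancel this
  apply Finset.sum_nbij' (i := fun L v => muC a ha * L v) (j := fun L v => (muC a ha)⁻¹ * L v)
  · intro L hL
    simp only [Finset.mem_filter, Finset.mem_univ, true_and] at hL ⊢
    exact ⟨PP_mu a ha hL.1, (hm L).mp hL.2⟩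
  · intro L hL
    simp only [Finset.mem_filter, Finset.mem_univ, true_and] at hL ⊢
    have hL' : (fun v => muC a ha * ((muC a ha)⁻¹ * L v)) = L := by
      funext v; rw [mul_inv_cancel_left]
    refine ⟨⟨fun v u => ?_, fun v u hvu => ?_⟩, ?_⟩
    · change (muC a ha)⁻¹ (L v u) = (muC a ha)⁻¹ (L u v)
      rw [hL.1.1]
    · change (muC a ha)⁻¹ (L v u) = _
      rw [hL.1.2 v u hvu, Equiv.Perm.inv_eq_iff_eq, muC_gam]
    · rw [hm, hL']
      exact hL.2
  · intro L _
    funext v
    simp
  · intro L _
    funext v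
    simp
  · intro L _
    exact (W_mu _ L).symm

theorem Sa_one [Fact p.Prime] (D : Finset (ZMod p)) (d0 : ZMod p) :
    Sa p D d0 1 = S1 p D d0 := by
  classical
  unfold Sa S1
  rw [Finset.sum_filter]
  apply Finset.sum_congr rfl
  intro L _
  have hrot : (rot p : Perm (ZMod p × Bool)) = rotA 1 := by
    apply Equiv.ext; intro x; rfl
  have hrotC : (rotC p : Perm (ZMod p × Bool)) = rotK 1 := by
    apply Equiv.ext; intro x; rfl
  have h1 : actF 1 1 L = L ↔ ∀ v u, L (rot p v) (rot p u) = rotC p (L v u) := by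
    rw [hrot, hrotC]
    have h3 : ∀ x, rotA (-1) (rotA (1 : ZMod p) x) = x := by
      intro x
      have := congrArg (fun e : Perm (ZMod p × Bool) => e x) (rotA_add (-1) (1 : ZMod p))
      simp only [neg_add_cancel, rotA_zero] at this
      exact this.symm
    have h4 : ∀ x, rotA (1 : ZMod p) (rotA (-1) x) = x := by
      intro x
      have := congrArg (fun e : Perm (ZMod p × Bool) => e x) (rotA_add (1 : ZMod p) (-1))
      simp only [add_neg_cancel, rotA_zero] at this
      exact this.symm
    constructor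
    · intro h v u
      have h2 : actF 1 1 L (rotA 1 v) (rotA 1 u) = L (rotA 1 v) (rotA 1 u) := by rw [h]
      rw [actF_apply, h3, h3] at h2
      exact h2.symm
    · intro h
      funext v
      apply Equiv.ext
      intro u
      rw [actF_apply, ← h, h4, h4]
  unfold W PP
  by_cases hc : (∀ v u, L v u = L u v) ∧ (∀ v u, ¬ (gD p D).Adj v u → L v u = gGam p d0 v u)
  · by_cases hd : actF 1 1 L = L
    · rw [if_pos ⟨hc, hd⟩, if_pos ⟨hc, h1.mp hd⟩]
    · rw [if_neg (fun h => hd h.2), if_neg (fun h => hd (h1.mpr h.2))]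
  · rw [if_neg (fun h => hc h.1), if_neg (fun h => hc h.1)]

theorem exists_of_nonfree [Fact p.Prime] (hp : p ≠ 2) {D : Finset (ZMod p)} {d0 : ZMod p}
    {L : Om p} (h : PP p D d0 L) (a k : ZMod p) (hak : (a, k) ≠ (0, 0)) (hf : actF a k L = L) :
    ∃ b : ZMod p, b ≠ 0 ∧ actF b 1 L = L := by
  have hk : k ≠ 0 := by
    intro hk
    subst hk
    have := no_fix_a hp h a hf
    subst this
    exact hak rfl
  have ha : a ≠ 0 := by
    intro ha
    subst ha
    exact hk (no_fix_k k L hf)
  refine ⟨k⁻¹ * a, mul_ne_zero (inv_ne_zero hk) ha, ?_⟩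
  have := fix_mul k⁻¹ a k L hf
  rwa [inv_mul_cancel₀ hk] at this

end CircA

open CircA in
theorem Ssum_gD_mod (p : ℕ) [Fact p.Prime] (hp : p ≠ 2) (D : Finset (ZMod p)) (d0 : ZMod p)
    (hd0 : d0 ∈ D) :
    (p : ℤ) ^ 2 ∣ Ssum (gD p D) (gGam p d0) - ((p : ℤ) - 1) * S1 p D d0 := by
  classical
  have hS : Ssum (gD p D) (gGam p d0) =
      ∑ L ∈ (Finset.univ : Finset (Om p)).filter (fun L => PP p D d0 L), W L := by
    unfold Ssum
    rw [Finset.sum_filter]
    apply Finset.sum_congr rfl
    intro L _
    unfold PP W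
    congr 1
  -- split into free and non-free points
  let NF : Om p → Prop := fun L => ∃ b : ZMod p, b ≠ 0 ∧ actF b 1 L = L
  have hsplit : ∑ L ∈ (Finset.univ : Finset (Om p)).filter (fun L => PP p D d0 L), W L =
      ∑ L ∈ (Finset.univ : Finset (Om p)).filter (fun L => PP p D d0 L ∧ NF L), W L +
      ∑ L ∈ (Finset.univ : Finset (Om p)).filter (fun L => PP p D d0 L ∧ ¬ NF L), W L := by
    rw [← Finset.sum_filter_add_sum_filter_not _ NF, Finset.filter_filter, Finset.filter_filter]
  have hfree : (p : ℤ) ^ 2 ∣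
      ∑ L ∈ (Finset.univ : Finset (Om p)).filter (fun L => PP p D d0 L ∧ ¬ NF L), W L := by
    have hc : (Fintype.card (Multiplicative (ZMod p × ZMod p)) : ℤ) = (p : ℤ) ^ 2 := by
      rw [Fintype.card_multiplicative, Fintype.card_prod, ZMod.card]
      push_cast
      ring
    rw [← hc]
    apply dvd_sum_of_free (phi p)
    · intro m L hL
      simp only [Finset.mem_filter, Finset.mem_univ, true_and] at hL ⊢
      refine ⟨PP_act _ _ hL.1, ?_⟩
      rintro ⟨b, hb, hb2⟩
      apply hL.2
      refine ⟨b, hb, ?_⟩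
      rw [phi_apply] at hb2
      have h1 := congrArg (actF (-m.toAdd.1) (-m.toAdd.2)) hb2
      rw [← actF_add, ← actF_add, ← actF_add] at h1
      have e1 : -m.toAdd.1 + b + m.toAdd.1 = b := by ring
      have e2 : -m.toAdd.2 + 1 + m.toAdd.2 = 1 := by ring
      rw [e1, e2, neg_add_cancel, neg_add_cancel, actF_zero] at h1
      exact h1
    · intro m L
      exact W_act _ _ L
    · intro L hL m hm
      simp only [Finset.mem_filter, Finset.mem_univ, true_and] at hL
      by_contra hne
      apply hL.2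
      apply exists_of_nonfree hp hL.1 m.toAdd.1 m.toAdd.2 _ hm
      intro h0
      apply hne
      have : m.toAdd = 0 := h0
      exact Multiplicative.toAdd.injective (by simpa using this)
  have hnf : ∑ L ∈ (Finset.univ : Finset (Om p)).filter (fun L => PP p D d0 L ∧ NF L), W L =
      ∑ a ∈ (Finset.univ : Finset (ZMod p)).erase 0, Sa p D d0 a := by
    unfold Sa
    simp only [Finset.sum_filter]
    rw [Finset.sum_comm]
    apply Finset.sum_congr rfl
    intro L _
    by_cases hP : PP p D d0 L
    · by_cases hN : NF L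
      · obtain ⟨b, hb, hb2⟩ := hN
        rw [if_pos ⟨hP, ⟨b, hb, hb2⟩⟩]
        rw [Finset.sum_eq_single b]
        · rw [if_pos ⟨hP, hb2⟩]
        · intro c _ hcb
          rw [if_neg]
          rintro ⟨_, hc2⟩
          have h1 := fix_sub c 1 b 1 L hc2 hb2
          rw [sub_self] at h1
          exact hcb (sub_eq_zero.mp (no_fix_a hp hP _ h1))
        · intro hb3
          exact absurd (Finset.mem_erase.mpr ⟨hb, Finset.mem_univ _⟩) hb3
      · rw [if_neg (fun h => hN h.2)]
        symm
        apply Finset.sum_eq_zero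
        intro a ha
        rw [if_neg]
        rintro ⟨_, h2⟩
        exact hN ⟨a, (Finset.mem_erase.mp ha).1, h2⟩
    · rw [if_neg (fun h => hP h.1)]
      symm
      apply Finset.sum_eq_zero
      intro a _
      rw [if_neg (fun h => hP h.1)]
  have hsum : ∑ a ∈ (Finset.univ : Finset (ZMod p)).erase 0, Sa p D d0 a =
      ((p : ℤ) - 1) * S1 p D d0 := by
    rw [Finset.sum_congr rfl (fun a ha => by
      rw [Sa_eq D d0 a (Finset.mem_erase.mp ha).1, Sa_one] : ∀ a ∈ (Finset.univ : Finset (ZMod p)).erase 0,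
        Sa p D d0 a = S1 p D d0)]
    rw [Finset.sum_const, Finset.card_erase_of_mem (Finset.mem_univ _), Finset.card_univ,
      ZMod.card, nsmul_eq_mul]
    have hp1 : 1 ≤ p := (Fact.out : p.Prime).one_lt.le
    push_cast [hp1]
    ring
  rw [hS, hsplit, hnf, hsum, add_sub_cancel_left]
  exact hfree

end Pool.Agent.H921R2.LEC
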