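import Pool.Agent.H921R2.LEC.Defs

set_option autoImplicit false

/-! Task F2: evaluation of the rotation invariant part `S1`. -/

namespace Pool.Agent.H921R2.LEC

open Equiv Equiv.Perm

namespace CB

variable {p : ℕ}

/-- block permutation: `u` on the `false` block, `g` on the `true` block -/
def blk (u g : Perm (ZMod p)) : Perm (ZMod p × Bool) where
  toFun v := (if v.2 = true then g v.1 else u v.1, v.2)
  invFun v := (if v.2 = true then g.symm v.1 else u.symm v.1, v.2)
  left_inv v := by rcases v with ⟨x, b⟩; cases b <;> simp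
  right_inv v := by rcases v with ⟨x, b⟩; cases b <;> simp

@[simp] theorem blk_f (u g : Perm (ZMod p)) (x : ZMod p) : blk u g (x, false) = (u x, false) := rfl
@[simp] theorem blk_t (u g : Perm (ZMod p)) (x : ZMod p) : blk u g (x, true) = (g x, true) := rfl

theorem blk_mul (u g u' g' : Perm (ZMod p)) : blk u g * blk u' g' = blk (u * u') (g * g') := by
  refine Equiv.ext fun v => ?_
  rcases v with ⟨x, b⟩
  cases b <;> rfl

theorem blk_inj {u g u' g' : Perm (ZMod p)} (h : blk u g = blk u' g') : u = u' ∧ g = g' := by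
  constructor
  · refine Equiv.ext fun x => ?_
    have := congrArg (fun σ : Perm (ZMod p × Bool) => (σ (x, false)).1) h
    simpa using this
  · refine Equiv.ext fun x => ?_
    have := congrArg (fun σ : Perm (ZMod p × Bool) => (σ (x, true)).1) h
    simpa using this

theorem sign_blk [NeZero p] (u g : Perm (ZMod p)) : sign (blk u g) = sign u * sign g := by
  have h : blk u g = prodCongrLeft (fun b : Bool => if b = true then g else u) := by
    refine Equiv.ext fun v => ?_
    rcases v with ⟨x, b⟩
    cases b <;> rfl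
  rw [h, sign_prodCongrLeft]
  simp [mul_comm]

/-- a permutation fixing the `false` block is a block permutation -/
theorem exists_blk [NeZero p] (σ : Perm (ZMod p × Bool)) (h : ∀ x, σ (x, false) = (x, false)) :
    ∃ g : Perm (ZMod p), σ = blk 1 g := by
  have h2 : ∀ x, (σ (x, true)).2 = true := by
    intro x
    by_contra hc
    have hc' : (σ (x, true)).2 = false := by simpa using hc
    have h3 : σ (x, true) = σ ((σ (x, true)).1, false) := by
      rw [h]
      exact Prod.ext rfl hc'
    have h4 := σ.injective h3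
    have h5 := congrArg Prod.snd h4
    simp at h5
  have hinj : Function.Injective (fun x => (σ (x, true)).1) := by
    intro x y hxy
    have h3 : σ (x, true) = σ (y, true) := Prod.ext hxy (by rw [h2, h2])
    have h4 := σ.injective h3
    exact congrArg Prod.fst h4
  refine ⟨Equiv.ofBijective _ (Finite.injective_iff_bijective.mp hinj), ?_⟩
  refine Equiv.ext fun v => ?_
  rcases v with ⟨x, b⟩
  cases b
  · rw [h]; rfl
  · exact Prod.ext rfl (h2 x)

/-- rotation of the vertices -/
def rz (x : ZMod p) : Perm (ZMod p × Bool) := blk (Equiv.addRight x) (Equiv.addRight x)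
/-- rotation of the colours -/
def cz (x : ZMod p) : Perm (ZMod p × Bool) := blk (Equiv.addRight x) 1

theorem rz_app (x y : ZMod p) (b : Bool) : rz x (y, b) = (y + x, b) := by
  cases b <;> rfl

@[simp] theorem cz_f (x y : ZMod p) : cz x (y, false) = (y + x, false) := rfl
@[simp] theorem cz_t (x y : ZMod p) : cz x (y, true) = (y, true) := rfl

theorem cz_snd (x : ZMod p) (v : ZMod p × Bool) : (cz x v).2 = v.2 := by
  rcases v with ⟨y, b⟩
  cases b <;> rfl

theorem cz_true (x : ZMod p) (v : ZMod p × Bool) (h : v.2 = true) : cz x v = v := by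
  rcases v with ⟨y, b⟩
  cases b
  · simp at h
  · rfl

theorem cz_add (x y : ZMod p) : cz (x + y) = cz x * cz y := by
  refine Equiv.ext fun v => ?_
  rcases v with ⟨z, b⟩
  cases b
  · simp only [Perm.mul_apply, cz_f]
    congr 1; ring
  · rfl

theorem rz_add (x y : ZMod p) : rz (x + y) = rz x * rz y := by
  refine Equiv.ext fun v => ?_
  rcases v with ⟨z, b⟩
  simp only [Perm.mul_apply, rz_app]
  congr 1; ring

theorem cz_zero : cz (0 : ZMod p) = 1 := by
  refine Equiv.ext fun v => ?_
  rcases v with ⟨z, b⟩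
  cases b
  · simp
  · rfl

theorem rz_zero : rz (0 : ZMod p) = 1 := by
  refine Equiv.ext fun v => ?_
  rcases v with ⟨z, b⟩
  rw [rz_app]; simp

theorem rot_eq : rot p = rz 1 := by
  refine Equiv.ext fun v => ?_
  rcases v with ⟨z, b⟩
  rw [rz_app]; rfl

theorem rotC_eq : rotC p = cz 1 := by
  refine Equiv.ext fun v => ?_
  rcases v with ⟨z, b⟩
  cases b <;> rfl

theorem sign_addRight [NeZero p] (hp : Odd p) (x : ZMod p) :
    sign (Equiv.addRight x : Perm (ZMod p)) = 1 := by
  have h1 : ∀ n : ℕ, ∀ y, ((Equiv.addRight x : Perm (ZMod p)) ^ n) y = y + n * x := by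
    intro n
    induction n with
    | zero => intro y; simp
    | succ n ih =>
      intro y
      rw [pow_succ', Perm.mul_apply, ih]
      simp only [Equiv.coe_addRight, Nat.cast_add, Nat.cast_one]
      ring
  have h2 : (Equiv.addRight x : Perm (ZMod p)) ^ p = 1 := by
    refine Equiv.ext fun y => ?_
    rw [h1]; simp
  have h3 := congrArg sign h2
  rw [map_pow, map_one] at h3
  rcases Int.units_eq_one_or (sign (Equiv.addRight x : Perm (ZMod p))) with h | h
  · exact h
  · rw [h, hp.neg_one_pow] at h3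
    exact absurd h3 (by decide)

theorem sign_cz [NeZero p] (hp : Odd p) (x : ZMod p) : sign (cz x) = 1 := by
  unfold cz
  rw [sign_blk, sign_addRight hp, map_one, mul_one]

theorem sign_rz [NeZero p] (hp : Odd p) (x : ZMod p) : sign (rz x) = 1 := by
  unfold rz
  rw [sign_blk, sign_addRight hp, mul_one]

theorem rot_iff [NeZero p] (L : (ZMod p × Bool) → Perm (ZMod p × Bool)) :
    (∀ v u, L (rot p v) (rot p u) = rotC p (L v u)) ↔
      ∀ x v u, L (rz x v) (rz x u) = cz x (L v u) := by
  constructor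
  · intro h
    have h1 : ∀ n : ℕ, ∀ v u, L (rz (n : ZMod p) v) (rz (n : ZMod p) u) = cz (n : ZMod p) (L v u) := by
      intro n
      induction n with
      | zero => intro v u; simp [rz_zero, cz_zero]
      | succ n ih =>
        intro v u
        have e1 : ∀ w, rz ((n + 1 : ℕ) : ZMod p) w = rot p (rz (n : ZMod p) w) := by
          intro w
          rw [rot_eq, ← Perm.mul_apply, ← rz_add]
          congr 2; push_cast; ring
        have e2 : ∀ w, cz ((n + 1 : ℕ) : ZMod p) w = rotC p (cz (n : ZMod p) w) := by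
          intro w
          rw [rotC_eq, ← Perm.mul_apply, ← cz_add]
          congr 2; push_cast; ring
        rw [e1, e1, h, ih, e2]
    intro x v u
    have := h1 x.val v u
    rwa [ZMod.natCast_zmod_val] at this
  · intro h v u
    rw [rot_eq, rotC_eq]
    exact h 1 v u

/-- the conditions on the two rows at `(0, false)` and `(0, true)` -/
def Cond (D : Finset (ZMod p)) (d0 : ZMod p) (α β : Perm (ZMod p × Bool)) : Prop :=
  α (0, false) = (d0, true) ∧ β (0, true) = (d0, true) ∧
  (∀ d, α (d, false) = cz d (α (-d, false))) ∧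
  (∀ d, β (d, true) = cz d (β (-d, true))) ∧
  (∀ d, β (d, false) = cz d (α (-d, true))) ∧
  (∀ b, b ∉ D → α (b, true) = (b, true))

/-- the family of rows generated by two rows -/
def Lam (α β : Perm (ZMod p × Bool)) (v : ZMod p × Bool) : Perm (ZMod p × Bool) :=
  cz v.1 * (if v.2 = true then β else α) * rz (-v.1)

theorem Lam_app (α β : Perm (ZMod p × Bool)) (x y : ZMod p) (b c : Bool) :
    Lam α β (x, b) (y, c) = cz x ((if b = true then β else α) (y - x, c)) := by
  unfold Lam
  rw [Perm.mul_apply, Perm.mul_apply, rz_app, sub_eq_add_neg]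

theorem cz_cz (x y z : ZMod p) (h : x + y = z) (v : ZMod p × Bool) : cz x (cz y v) = cz z v := by
  rw [← h, cz_add, Perm.mul_apply]

theorem Lam_symm {D : Finset (ZMod p)} {d0 : ZMod p} {α β : Perm (ZMod p × Bool)}
    (h : Cond D d0 α β) (v u : ZMod p × Bool) : Lam α β v u = Lam α β u v := by
  obtain ⟨h1, h2, h3, h4, h5, h6⟩ := h
  rcases v with ⟨x, b⟩
  rcases u with ⟨y, c⟩
  rw [Lam_app, Lam_app]
  cases b <;> cases c
  · simp only [Bool.false_eq_true, if_false]
    rw [h3 (y - x), cz_cz x (y - x) y (by ring), neg_sub]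
  · simp only [Bool.false_eq_true, if_false, if_true]
    rw [h5 (x - y), cz_cz y (x - y) x (by ring), neg_sub]
  · simp only [Bool.false_eq_true, if_false, if_true]
    rw [h5 (y - x), cz_cz x (y - x) y (by ring), neg_sub]
  · simp only [if_true]
    rw [h4 (y - x), cz_cz x (y - x) y (by ring), neg_sub]

theorem Lam_pre {D : Finset (ZMod p)} {d0 : ZMod p} {α β : Perm (ZMod p × Bool)}
    (h : Cond D d0 α β) (v u : ZMod p × Bool) (hvu : ¬ (gD p D).Adj v u) :
    Lam α β v u = gGam p d0 v u := by
  have hsym := Lam_symm h v u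
  obtain ⟨h1, h2, h3, h4, h5, h6⟩ := h
  rcases v with ⟨x, b⟩
  rcases u with ⟨y, c⟩
  by_cases hxy : ((x, b) : ZMod p × Bool) = (y, c)
  · have e1 : x = y := congrArg Prod.fst hxy
    have e2 : b = c := congrArg Prod.snd hxy
    subst e1; subst e2
    rw [Lam_app, sub_self]
    unfold gGam
    rw [if_pos rfl]
    cases b
    · simp [h1]
    · simp [h2]
  · have hA : ¬ (b = c ∨ (b = false ∧ c = true ∧ y - x ∈ D) ∨ (b = true ∧ c = false ∧ x - y ∈ D)) :=
      fun hc => hvu ⟨hxy, hc⟩
    push Not at hA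
    obtain ⟨a1, a2, a3⟩ := hA
    unfold gGam
    rw [if_neg hxy]
    cases b <;> cases c
    · exact absurd rfl a1
    · rw [Lam_app]
      simp only [Bool.false_eq_true, if_false, if_true]
      rw [h6 _ (a2 rfl rfl), cz_t]
    · rw [hsym, Lam_app]
      simp only [Bool.false_eq_true, Bool.true_eq_false, if_false]
      rw [h6 _ (a3 rfl rfl), cz_t]
    · exact absurd rfl a1

theorem Lam_rot (α β : Perm (ZMod p × Bool)) (a : ZMod p) (v u : ZMod p × Bool) :
    Lam α β (rz a v) (rz a u) = cz a (Lam α β v u) := by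
  rcases v with ⟨x, b⟩
  rcases u with ⟨y, c⟩
  rw [rz_app, rz_app, Lam_app, Lam_app, cz_cz a x (x + a) (by ring)]
  congr 2
  congr 1
  ring

theorem Lam_f (α β : Perm (ZMod p × Bool)) : Lam α β (0, false) = α := by
  unfold Lam
  simp [cz_zero, rz_zero]

theorem Lam_t (α β : Perm (ZMod p × Bool)) : Lam α β (0, true) = β := by
  unfold Lam
  simp [cz_zero, rz_zero]

theorem Lam_of {L : (ZMod p × Bool) → Perm (ZMod p × Bool)}
    (h : ∀ x v u, L (rz x v) (rz x u) = cz x (L v u)) :
    Lam (L (0, false)) (L (0, true)) = L := by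
  funext v
  refine Equiv.ext fun u => ?_
  rcases v with ⟨x, b⟩
  rcases u with ⟨y, c⟩
  have e : L (x, b) (y, c) = cz x (L (0, b) (y - x, c)) := by
    rw [← h, rz_app, rz_app]
    congr 2
    · rw [zero_add]
    · rw [sub_add_cancel]
  rw [Lam_app, e]
  cases b <;> rfl

theorem cond_of [NeZero p] {D : Finset (ZMod p)} {d0 : ZMod p}
    {L : (ZMod p × Bool) → Perm (ZMod p × Bool)} (hs : ∀ v u, L v u = L u v)
    (hpre : ∀ v u, ¬ (gD p D).Adj v u → L v u = gGam p d0 v u)
    (h : ∀ x v u, L (rz x v) (rz x u) = cz x (L v u)) :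
    Cond D d0 (L (0, false)) (L (0, true)) := by
  have key : ∀ d (b c : Bool), L (0, b) (d, c) = cz d (L (0, c) (-d, b)) := by
    intro d b c
    rw [hs, ← h, rz_app, rz_app, zero_add, neg_add_cancel]
  refine ⟨?_, ?_, fun d => key d _ _, fun d => key d _ _, fun d => key d _ _, ?_⟩
  · rw [hpre _ _ (fun hc => hc.1 rfl)]
    unfold gGam
    rw [if_pos rfl]
  · rw [hpre _ _ (fun hc => hc.1 rfl)]
    unfold gGam
    rw [if_pos rfl]
  · intro b hb
    have hA : ¬ (gD p D).Adj (0, false) (b, true) := by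
      rintro ⟨_, hc⟩
      rcases hc with hc | hc | hc
      · exact absurd hc (by simp)
      · apply hb
        have := hc.2.2
        simpa using this
      · exact absurd hc.1 (by simp)
    rw [hpre _ _ hA]
    unfold gGam
    rw [if_neg (by simp)]
    simp

theorem sign_Lam [NeZero p] (hp : Odd p) (α β : Perm (ZMod p × Bool)) :
    ∏ v, sign (Lam α β v) = sign α * sign β := by
  have h1 : ∀ v, sign (Lam α β v) = if v.2 = true then sign β else sign α := by
    intro v
    unfold Lam
    rw [map_mul, map_mul, sign_cz hp, sign_rz hp, one_mul, mul_one]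
    split_ifs <;> rfl
  simp only [h1]
  rw [Fintype.prod_prod_type]
  simp only [Fintype.prod_bool, if_true, Bool.false_eq_true, if_false, Finset.prod_const,
    Finset.card_univ, ZMod.card]
  have h2 : ∀ s : ℤˣ, s ^ p = s := by
    intro s
    rcases Int.units_eq_one_or s with h | h
    · rw [h, one_pow]
    · rw [h, hp.neg_one_pow]
  rw [h2, mul_comm]

open Classical in
theorem S1_red [NeZero p] (hp : Odd p) (D : Finset (ZMod p)) (d0 : ZMod p) :
    S1 p D d0 = ∑ q : Perm (ZMod p × Bool) × Perm (ZMod p × Bool),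
      if Cond D d0 q.1 q.2 then ((sign q.1 * sign q.2 : ℤˣ) : ℤ) else 0 := by
  unfold S1
  rw [← Finset.sum_filter, ← Finset.sum_filter]
  refine Finset.sum_nbij' (fun L => (L (0, false), L (0, true))) (fun q => Lam q.1 q.2)
    ?_ ?_ ?_ ?_ ?_
  · intro L hL
    simp only [Finset.mem_filter, Finset.mem_univ, true_and] at hL ⊢
    exact cond_of hL.1.1 hL.1.2 ((rot_iff L).1 hL.2)
  · intro q hq
    simp only [Finset.mem_filter, Finset.mem_univ, true_and] at hq ⊢
    exact ⟨⟨Lam_symm hq, Lam_pre hq⟩, (rot_iff _).2 (fun x v u => Lam_rot _ _ x v u)⟩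
  · intro L hL
    simp only [Finset.mem_filter, Finset.mem_univ, true_and] at hL
    exact Lam_of ((rot_iff L).1 hL.2)
  · intro q hq
    exact Prod.ext (Lam_f _ _) (Lam_t _ _)
  · intro L hL
    simp only [Finset.mem_filter, Finset.mem_univ, true_and] at hL
    have e := Lam_of ((rot_iff L).1 hL.2)
    rw [← sign_Lam hp, Units.coe_prod, e]

/-- auxiliary permutation -/
def nu : Perm (ZMod p × Bool) where
  toFun v := if v.2 = true then (v.1, false) else (-v.1, true)
  invFun v := if v.2 = true then (-v.1, false) else (v.1, true)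
  left_inv v := by rcases v with ⟨x, b⟩; cases b <;> simp
  right_inv v := by rcases v with ⟨x, b⟩; cases b <;> simp

@[simp] theorem nu_f (x : ZMod p) : nu (x, false) = (-x, true) := rfl
@[simp] theorem nu_t (x : ZMod p) : nu (x, true) = (x, false) := rfl

/-- transposition of `(t, false)` and `(d0, true)` -/
def sw (d0 t : ZMod p) : Perm (ZMod p × Bool) := swap (t, false) (d0, true)

theorem sw_f (d0 t x : ZMod p) : sw d0 t (x, false) = if x = t then (d0, true) else (x, false) := by
  unfold sw
  split_ifs with h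
  · rw [h, swap_apply_left]
  · exact swap_apply_of_ne_of_ne (by simp [h]) (by simp)

theorem sw_t (d0 t x : ZMod p) : sw d0 t (x, true) = if x = d0 then (t, false) else (x, true) := by
  unfold sw
  split_ifs with h
  · rw [h, swap_apply_right]
  · exact swap_apply_of_ne_of_ne (by simp) (by simp [h])

/-- row at `(0, false)` -/
def al (d0 t : ZMod p) (g u : Perm (ZMod p)) : Perm (ZMod p × Bool) :=
  sw d0 t * cz t * blk u g

/-- row at `(0, true)` -/
def be (d0 t : ZMod p) (g u : Perm (ZMod p)) : Perm (ZMod p × Bool) :=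
  cz (-(g.symm d0)) * sw d0 t * cz t * blk 1 g * nu * blk 1 u

theorem al_f (d0 t : ZMod p) (g u : Perm (ZMod p)) (x : ZMod p) :
    al d0 t g u (x, false) = if u x = 0 then (d0, true) else (u x + t, false) := by
  unfold al
  simp only [Perm.mul_apply, blk_f, cz_f, sw_f]
  by_cases h : u x = 0
  · rw [if_pos h, h, zero_add, if_pos rfl]
  · rw [if_neg h, if_neg]
    intro hc
    apply h
    simpa using hc

theorem al_t (d0 t : ZMod p) (g u : Perm (ZMod p)) (x : ZMod p) :
    al d0 t g u (x, true) = if g x = d0 then (t, false) else (g x, true) := by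
  unfold al
  simp only [Perm.mul_apply, blk_t, cz_t, sw_t]

theorem be_f (d0 t : ZMod p) (g u : Perm (ZMod p)) (x : ZMod p) :
    be d0 t g u (x, false) = if g (-x) = d0 then (t + x, false) else (g (-x), true) := by
  unfold be
  simp only [Perm.mul_apply, blk_f, blk_t, cz_t, nu_f, sw_t, Perm.one_apply]
  split_ifs with h
  · rw [cz_f]
    congr 1
    rw [← h, Equiv.symm_apply_apply, neg_neg]
  · rfl

theorem be_t (d0 t : ZMod p) (g u : Perm (ZMod p)) (x : ZMod p) :
    be d0 t g u (x, true) = if u x = 0 then (d0, true) else (u x + t - g.symm d0, false) := by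
  unfold be
  simp only [Perm.mul_apply, blk_f, blk_t, cz_f, nu_t, sw_f, Perm.one_apply]
  by_cases h : u x = 0
  · rw [if_pos h, h, zero_add, if_pos rfl]; rfl
  · rw [if_neg h, if_neg]
    · rw [cz_f, sub_eq_add_neg]
    · intro hc
      apply h
      simpa using hc

/-- starters -/
def IsSt (u : Perm (ZMod p)) : Prop := u 0 = 0 ∧ ∀ d, u d - u (-d) = d

theorem IsSt.ne {u : Perm (ZMod p)} (h : IsSt u) {d : ZMod p} (hd : d ≠ 0) : u d ≠ 0 := by
  intro hc
  exact hd (u.injective (hc.trans h.1.symm))

theorem cond_al_be {D : Finset (ZMod p)} {d0 : ZMod p} (hd0 : d0 ∈ D) (t : ZMod p)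
    {g u u' : Perm (ZMod p)} (hg : ∀ b, b ∉ D → g b = b) (hu : IsSt u) (hu' : IsSt u') :
    Cond D d0 (al d0 t g u) (be d0 t g u') := by
  refine ⟨?_, ?_, ?_, ?_, ?_, ?_⟩
  · rw [al_f, if_pos hu.1]
  · rw [be_t, if_pos hu'.1]
  · intro d
    by_cases hd : d = 0
    · subst hd
      rw [neg_zero, cz_zero]; rfl
    · rw [al_f, al_f, if_neg (hu.ne hd), if_neg (hu.ne (neg_ne_zero.mpr hd)), cz_f]
      congr 1
      linear_combination hu.2 d
  · intro d
    by_cases hd : d = 0
    · subst hd
      rw [neg_zero, cz_zero]; rfl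
    · rw [be_t, be_t, if_neg (hu'.ne hd), if_neg (hu'.ne (neg_ne_zero.mpr hd)), cz_f]
      congr 1
      linear_combination hu'.2 d
  · intro d
    rw [be_f, al_t]
    split_ifs with h
    · rw [cz_f]
    · rfl
  · intro b hb
    rw [al_t, hg b hb, if_neg]
    intro hc
    exact hb (hc ▸ hd0)

theorem al_be_inj {d0 t t' : ZMod p} {g g' u u' v v' : Perm (ZMod p)}
    (h1 : al d0 t g u = al d0 t' g' u') (h2 : be d0 t g v = be d0 t' g' v') :
    t = t' ∧ g = g' ∧ u = u' ∧ v = v' := by
  have e : al d0 t g u (g.symm d0, true) = al d0 t' g' u' (g.symm d0, true) := by rw [h1]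
  rw [al_t, al_t, Equiv.apply_symm_apply, if_pos rfl] at e
  have ht : t = t' := by
    split_ifs at e with hc
    · exact congrArg Prod.fst e
    · exact absurd (congrArg Prod.snd e) (by simp)
  subst ht
  unfold al at h1
  have h3 := blk_inj (mul_left_cancel h1)
  obtain ⟨hu, hg⟩ := h3
  subst hu; subst hg
  unfold be at h2
  have h4 := blk_inj (mul_left_cancel h2)
  exact ⟨rfl, rfl, rfl, h4.2⟩

theorem surj [NeZero p] (hp : Odd p) {D : Finset (ZMod p)} {d0 : ZMod p}
    {α β : Perm (ZMod p × Bool)} (h : Cond D d0 α β) :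
    ∃ (t : ZMod p) (g u u' : Perm (ZMod p)), (∀ b, b ∉ D → g b = b) ∧ IsSt u ∧ IsSt u' ∧
      al d0 t g u = α ∧ be d0 t g u' = β := by
  obtain ⟨h1, h2, h3, h4, h5, h6⟩ := h
  have htwo : ∀ d : ZMod p, d = -d → d = 0 := by
    intro d hd
    have h2d : ((2 : ℕ) : ZMod p) * d = 0 := by push_cast; linear_combination hd
    have hc : Nat.Coprime 2 p := (Nat.coprime_two_left).mpr hp
    have hu : IsUnit ((2 : ℕ) : ZMod p) := (ZMod.isUnit_iff_coprime 2 p).mpr hc
    exact (hu.mul_right_eq_zero).mp h2d
  -- (i)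
  have i1 : ∀ d, d ≠ 0 → (α (d, false)).2 = false := by
    intro d hd
    by_contra hc
    have hc' : (α (d, false)).2 = true := by simpa using hc
    have e := h3 d
    have e2 : (α (-d, false)).2 = true := by rw [← cz_snd d, ← e]; exact hc'
    rw [cz_true d _ e2] at e
    have e3 := α.injective e
    exact hd (htwo d (congrArg Prod.fst e3))
  -- (ii)
  have hinj : ∀ x y, x ≠ 0 → y ≠ 0 → (α (x, false)).1 = (α (y, false)).1 → x = y := by
    intro x y hx hy hxy
    have := α.injective (Prod.ext hxy ((i1 x hx).trans (i1 y hy).symm))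
    exact congrArg Prod.fst this
  obtain ⟨t, ht⟩ : ∃ t, ∀ d, d ≠ 0 → (α (d, false)).1 ≠ t := by
    by_contra hc
    push Not at hc
    choose f hf using hc
    have hfi : Function.Injective f := by
      intro x y hxy
      rw [← (hf x).2, ← (hf y).2, hxy]
    have hfs := (Finite.injective_iff_surjective.mp hfi) 0
    obtain ⟨x, hx⟩ := hfs
    exact (hf x).1 hx
  have hui : Function.Injective (fun d : ZMod p => if d = 0 then 0 else (α (d, false)).1 - t) := by
    intro x y hxy
    simp only at hxy
    by_cases hx : x = 0 <;> by_cases hy : y = 0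
    · rw [hx, hy]
    · rw [if_pos hx, if_neg hy] at hxy
      exact absurd (sub_eq_zero.mp hxy.symm) (ht y hy)
    · rw [if_neg hx, if_pos hy] at hxy
      exact absurd (sub_eq_zero.mp hxy) (ht x hx)
    · rw [if_neg hx, if_neg hy] at hxy
      exact hinj x y hx hy (sub_left_inj.mp hxy)
  obtain ⟨u, hu⟩ : ∃ u : Perm (ZMod p), ∀ d, u d = if d = 0 then 0 else (α (d, false)).1 - t :=
    ⟨Equiv.ofBijective _ (Finite.injective_iff_bijective.mp hui), fun d => rfl⟩
  have hu0 : u 0 = 0 := by rw [hu, if_pos rfl]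
  have hu1 : ∀ d, d ≠ 0 → α (d, false) = (u d + t, false) := by
    intro d hd
    rw [hu, if_neg hd, sub_add_cancel]
    exact Prod.ext rfl (i1 d hd)
  have hst : IsSt u := by
    refine ⟨hu0, fun d => ?_⟩
    by_cases hd : d = 0
    · subst hd; rw [neg_zero, sub_self]
    · have e := h3 d
      rw [hu1 d hd, hu1 (-d) (neg_ne_zero.mpr hd), cz_f] at e
      have e1 := congrArg Prod.fst e
      simp only at e1
      linear_combination e1
  -- (iii)
  obtain ⟨g, hg⟩ := exists_blk ((sw d0 t * cz t * blk u 1)⁻¹ * α) (by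
    intro x
    rw [Perm.mul_apply, Perm.inv_eq_iff_eq]
    have e := al_f d0 t 1 u x
    unfold al at e
    rw [e]
    by_cases hx : x = 0
    · rw [hx, hu0, if_pos rfl, h1]
    · rw [if_neg (hst.ne hx), hu1 x hx])
  have hα : al d0 t g u = α := by
    have e : α = sw d0 t * cz t * blk u 1 * blk 1 g := by rw [← hg, mul_inv_cancel_left]
    rw [e, mul_assoc, blk_mul, mul_one, one_mul]
    rfl
  have hgD : ∀ b, b ∉ D → g b = b := by
    intro b hb
    have e := h6 b hb
    rw [← hα, al_t] at e
    split_ifs at e with hc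
    · exact absurd (congrArg Prod.snd e) (by simp)
    · exact congrArg Prod.fst e
  -- (vi)
  obtain ⟨u', hu'⟩ := exists_blk ((cz (-(g.symm d0)) * sw d0 t * cz t * blk 1 g * nu)⁻¹ * β) (by
    intro x
    rw [Perm.mul_apply, Perm.inv_eq_iff_eq]
    have e := be_f d0 t g 1 x
    unfold be at e
    have e' : (blk (1 : Perm (ZMod p)) 1) = 1 := by
      refine Equiv.ext fun v => ?_
      rcases v with ⟨y, b⟩
      cases b <;> rfl
    rw [e', mul_one] at e
    rw [e, h5, ← hα, al_t]
    split_ifs with hc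
    · rw [cz_f]
    · rfl)
  have hβ : be d0 t g u' = β := by
    have e : β = cz (-(g.symm d0)) * sw d0 t * cz t * blk 1 g * nu * blk 1 u' := by
      rw [← hu', mul_inv_cancel_left]
    rw [e]
    rfl
  have hu'0 : u' 0 = 0 := by
    by_contra hc
    have e := h2
    rw [← hβ, be_t, if_neg hc] at e
    exact absurd (congrArg Prod.snd e) (by simp)
  have hst' : IsSt u' := by
    refine ⟨hu'0, fun d => ?_⟩
    by_cases hd : d = 0
    · subst hd; rw [neg_zero, sub_self]
    · have e := h4 d
      have n1 : u' d ≠ 0 := fun hc => hd (u'.injective (hc.trans hu'0.symm))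
      have n2 : u' (-d) ≠ 0 := fun hc =>
        (neg_ne_zero.mpr hd) (u'.injective (hc.trans hu'0.symm))
      rw [← hβ, be_t, be_t, if_neg n1, if_neg n2, cz_f] at e
      have e1 := congrArg Prod.fst e
      simp only at e1
      linear_combination e1
  exact ⟨t, g, u, u', hgD, hst, hst', hα, hβ⟩

theorem sign_al_be [NeZero p] (hp : Odd p) (d0 t : ZMod p) (g u u' : Perm (ZMod p)) :
    sign (al d0 t g u) * sign (be d0 t g u') = sign (nu : Perm (ZMod p × Bool)) *
      sign u * sign u' := by
  unfold al be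
  simp only [map_mul, sign_cz hp, sign_blk, map_one, one_mul, mul_one]
  have h : ∀ s : ℤˣ, s * s = 1 := fun s => Int.units_mul_self s
  have k : ∀ a b c e f : ℤˣ, a * (b * c) * (a * c * e * f) = (a * a) * (c * c) * (e * b * f) := by
    intro a b c e f
    apply Units.ext
    push_cast
    ring
  rw [k, h, h, one_mul, one_mul]

open Classical in
theorem card_fix [NeZero p] (D : Finset (ZMod p)) :
    (Finset.univ.filter (fun g : Perm (ZMod p) => ∀ b, b ∉ D → g b = b)).card =
      (D.card).factorial := by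
  rw [← Fintype.card_subtype]
  rw [← Fintype.card_congr (Equiv.Perm.subtypeEquivSubtypePerm (fun b => b ∈ D))]
  rw [Fintype.card_perm]
  simp

end CB

open CB in
open Classical in
theorem S1_eq (p : ℕ) [Fact p.Prime] (hp : p ≠ 2) (D : Finset (ZMod p)) (d0 : ZMod p)
    (hd0 : d0 ∈ D) :
    ∃ ε : ℤ, (ε = 1 ∨ ε = -1) ∧ S1 p D d0 = ε * p * (D.card).factorial * Tst p ^ 2 := by
  have hodd : Odd p := (Fact.out : p.Prime).odd_of_ne_two hp
  refine ⟨((sign (nu : Perm (ZMod p × Bool)) : ℤˣ) : ℤ), ?_, ?_⟩
  · rcases Int.units_eq_one_or (sign (nu : Perm (ZMod p × Bool))) with h | h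
    · left; rw [h]; rfl
    · right; rw [h]; rfl
  rw [S1_red hodd, ← Finset.sum_filter]
  have hT : Tst p = ∑ u ∈ Finset.univ.filter (fun u : Perm (ZMod p) => IsSt u),
      ((sign u : ℤˣ) : ℤ) := by
    unfold Tst
    rw [Finset.sum_filter]
    refine Finset.sum_congr rfl fun u _ => ?_
    unfold IsSt
    congr
  have hbij : ∑ q ∈ Finset.univ.filter (fun q : Perm (ZMod p × Bool) × Perm (ZMod p × Bool) =>
        Cond D d0 q.1 q.2), ((sign q.1 * sign q.2 : ℤˣ) : ℤ) =
      ∑ r ∈ (Finset.univ : Finset (ZMod p)) ×ˢ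
        ((Finset.univ.filter (fun g : Perm (ZMod p) => ∀ b, b ∉ D → g b = b)) ×ˢ
        ((Finset.univ.filter (fun u : Perm (ZMod p) => IsSt u)) ×ˢ
        (Finset.univ.filter (fun u : Perm (ZMod p) => IsSt u)))),
        ((sign (nu : Perm (ZMod p × Bool)) * sign r.2.2.1 * sign r.2.2.2 : ℤˣ) : ℤ) := by
    symm
    refine Finset.sum_bij
      (fun r _ => (al d0 r.1 r.2.1 r.2.2.1, be d0 r.1 r.2.1 r.2.2.2)) ?_ ?_ ?_ ?_
    · rintro ⟨t, g, u, u'⟩ hr
      simp only [Finset.mem_product, Finset.mem_filter, Finset.mem_univ, true_and] at hr ⊢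
      exact cond_al_be hd0 t hr.1 hr.2.1 hr.2.2
    · rintro ⟨t, g, u, u'⟩ hr ⟨s, g', v, v'⟩ hr' heq
      simp only [Prod.mk.injEq] at heq ⊢
      exact al_be_inj heq.1 heq.2
    · rintro ⟨α, β⟩ hq
      simp only [Finset.mem_filter, Finset.mem_univ, true_and] at hq
      obtain ⟨t, g, u, u', a1, a2, a3, a4, a5⟩ := surj hodd hq
      refine ⟨(t, g, u, u'), ?_, ?_⟩
      · simp only [Finset.mem_product, Finset.mem_filter, Finset.mem_univ, true_and]
        exact ⟨a1, a2, a3⟩
      · simp only [a4, a5]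
    · rintro ⟨t, g, u, u'⟩ hr
      simp only
      rw [sign_al_be hodd]
  rw [hbij, Finset.sum_product]
  simp only [Finset.sum_product]
  simp only [Units.val_mul, ← Finset.mul_sum, ← Finset.sum_mul, Finset.sum_const, card_fix,
    Finset.card_univ, ZMod.card, nsmul_eq_mul]
  rw [← hT]
  ring

end Pool.Agent.H921R2.LEC
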