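import Pool.Agent.H921R2.LEC.Defs

set_option autoImplicit false

/-! All the graphs `K_V - F`, `F` a perfect matching, have the same signed sum. -/

namespace Pool.Agent.H921R2.LEC

open Equiv Equiv.Perm

namespace TwoP

/-- product of the signs of the rows -/
noncomputable def WW {V : Type} [Fintype V] [DecidableEq V] (L : V → Perm V) : ℤ :=
  ∏ v, ((sign (L v) : ℤˣ) : ℤ)

/-- the condition of the sum with the colour `c1` prescribed on the pairs `v, f v` -/
def Cond {V : Type} (z0 c1 : V) (f : Perm V) (L : V → Perm V) : Prop :=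
  (∀ v u, L v u = L u v) ∧ (∀ v, L v v = z0) ∧ (∀ v, L v (f v) = c1)

open Classical in
/-- the part of the sum of the families with the colour `c1` prescribed on the pairs `v, f v` -/
noncomputable def SS {V : Type} [Fintype V] [DecidableEq V] (z0 c1 : V) (f : Perm V) : ℤ :=
  ∑ L : V → Perm V, if Cond z0 c1 f L then WW L else 0

/-- fixed point free involutions -/
def FPF {V : Type} (f : Perm V) : Prop := (∀ v, f (f v) = v) ∧ ∀ v, f v ≠ v

theorem cond_fpf {V : Type} (z0 c1 : V) (h01 : z0 ≠ c1) (f : Perm V) (L : V → Perm V)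
    (h : Cond z0 c1 f L) : FPF f := by
  obtain ⟨h1, h2, h3⟩ := h
  refine ⟨fun v => ?_, fun v hv => ?_⟩
  · have ha : L (f v) v = c1 := by rw [h1, h3]
    have hb : L (f v) (f (f v)) = c1 := h3 (f v)
    exact (L (f v)).injective (hb.trans ha.symm)
  · have ha := h3 v
    rw [hv, h2] at ha
    exact h01 ha

theorem SS_not_fpf {V : Type} [Fintype V] [DecidableEq V] (z0 c1 : V) (h01 : z0 ≠ c1)
    (f : Perm V) (hf : ¬ FPF f) : SS z0 c1 f = 0 := by
  unfold SS
  apply Finset.sum_eq_zero
  intro L _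
  rw [if_neg]
  intro h
  exact hf (cond_fpf z0 c1 h01 f L h)

/-- renaming of the vertices -/
def rnm {V : Type} (g : Perm V) : (V → Perm V) ≃ (V → Perm V) where
  toFun L := fun v => L (g.symm v) * g.symm
  invFun L := fun v => L (g v) * g
  left_inv L := by
    funext v
    ext u
    simp
  right_inv L := by
    funext v
    ext u
    simp

theorem rnm_apply {V : Type} (g : Perm V) (L : V → Perm V) (v u : V) :
    rnm g L v u = L (g.symm v) (g.symm u) := rfl

theorem rnm_cond {V : Type} (z0 c1 : V) (g f : Perm V) (L : V → Perm V) :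
    Cond z0 c1 (g * f * g⁻¹) (rnm g L) ↔ Cond z0 c1 f L := by
  unfold Cond
  constructor
  · rintro ⟨h1, h2, h3⟩
    refine ⟨fun v u => ?_, fun v => ?_, fun v => ?_⟩
    · have := h1 (g v) (g u)
      simpa [rnm_apply] using this
    · have := h2 (g v)
      simpa [rnm_apply] using this
    · have := h3 (g v)
      simpa [rnm_apply] using this
  · rintro ⟨h1, h2, h3⟩
    refine ⟨fun v u => ?_, fun v => ?_, fun v => ?_⟩
    · simp only [rnm_apply]
      exact h1 _ _
    · simp only [rnm_apply]
      exact h2 _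
    · simp only [rnm_apply, Perm.mul_apply]
      have := h3 (g.symm v)
      simpa using this

theorem rnm_WW {V : Type} [Fintype V] [DecidableEq V] (g : Perm V) (L : V → Perm V)
    (hV : Even (Fintype.card V)) : WW (rnm g L) = WW L := by
  unfold WW
  have h1 : ∀ v, ((sign (rnm g L v) : ℤˣ) : ℤ) =
      ((sign (L (g.symm v)) : ℤˣ) : ℤ) * ((sign g.symm : ℤˣ) : ℤ) := by
    intro v
    change ((sign (L (g.symm v) * g.symm) : ℤˣ) : ℤ) = _
    rw [Perm.sign_mul]
    push_cast
    rfl
  rw [Finset.prod_congr rfl (fun v _ => h1 v), Finset.prod_mul_distrib]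
  have h2 : ∏ v, ((sign (L (g.symm v)) : ℤˣ) : ℤ) = ∏ v, ((sign (L v) : ℤˣ) : ℤ) :=
    Equiv.prod_comp g.symm (fun v => ((sign (L v) : ℤˣ) : ℤ))
  rw [h2, Finset.prod_const, Finset.card_univ]
  obtain ⟨k, hk⟩ := hV
  have h3 : ((sign g.symm : ℤˣ) : ℤ) ^ Fintype.card V = 1 := by
    rw [hk, pow_add, ← mul_pow]
    rcases Int.units_eq_one_or (sign g.symm) with h | h <;> rw [h] <;> simp
  rw [h3, mul_one]

theorem SS_conj {V : Type} [Fintype V] [DecidableEq V] (z0 c1 : V) (g f : Perm V)
    (hV : Even (Fintype.card V)) : SS z0 c1 (g * f * g⁻¹) = SS z0 c1 f := by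
  unfold SS
  rw [← Equiv.sum_comp (rnm g)]
  apply Finset.sum_congr rfl
  intro L _
  by_cases h : Cond z0 c1 f L
  · rw [if_pos h, if_pos ((rnm_cond z0 c1 g f L).mpr h), rnm_WW g L hV]
  · rw [if_neg h, if_neg (fun hh => h ((rnm_cond z0 c1 g f L).mp hh))]

theorem fpf_cycleType {V : Type} [Fintype V] [DecidableEq V] (f : Perm V) (hf : FPF f)
    [Nonempty V] : f.cycleType = Multiset.replicate (Fintype.card V / 2) 2 := by
  have hsq : f ^ 2 = 1 := by
    ext v
    simp [pow_two, hf.1]
  have hne : f ≠ 1 := by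
    intro h
    obtain ⟨v⟩ := ‹Nonempty V›
    exact hf.2 v (by rw [h]; rfl)
  have ho : orderOf f = 2 := orderOf_eq_prime hsq hne
  obtain ⟨n, hn⟩ := cycleType_prime_order (σ := f) (by rw [ho]; exact Nat.prime_two)
  have hs : f.support = Finset.univ := by
    ext v
    simp [hf.2 v]
  have h1 : f.cycleType.sum = Fintype.card V := by
    rw [sum_cycleType, hs, Finset.card_univ]
  rw [hn, ho, Multiset.sum_replicate, smul_eq_mul] at h1
  rw [hn, ho, ← h1]
  congr 1
  omega

theorem SS_fpf {V : Type} [Fintype V] [DecidableEq V] [Nonempty V] (z0 c1 : V) (f f0 : Perm V)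
    (hf : FPF f) (hf0 : FPF f0) (hV : Even (Fintype.card V)) :
    SS z0 c1 f = SS z0 c1 f0 := by
  have h : IsConj f0 f := by
    rw [isConj_iff_cycleType_eq, fpf_cycleType f hf, fpf_cycleType f0 hf0]
  obtain ⟨g, hg⟩ := isConj_iff.mp h
  rw [← hg]
  exact SS_conj z0 c1 g f0 hV

open Classical in
theorem sum_perm {V : Type} [Fintype V] [DecidableEq V] (z0 c1 : V) (h01 : z0 ≠ c1)
    (L : V → Perm V) (h1 : ∀ v u, L v u = L u v) (h2 : ∀ v, L v v = z0) :
    ∑ f : Perm V, (if Cond z0 c1 f L then WW L else 0) = WW L := by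
  have hinv : ∀ v, (fun v => (L v).symm c1) ((fun v => (L v).symm c1) v) = v := by
    intro v
    simp only
    have ha : L ((L v).symm c1) v = c1 := by
      rw [h1]; simp
    rw [Equiv.symm_apply_eq]
    exact ha.symm
  let f0 : Perm V :=
    { toFun := fun v => (L v).symm c1
      invFun := fun v => (L v).symm c1
      left_inv := hinv
      right_inv := hinv }
  have hc0 : Cond z0 c1 f0 L := by
    refine ⟨h1, h2, fun v => ?_⟩
    change L v ((L v).symm c1) = c1
    simp
  rw [Finset.sum_eq_single f0]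
  · rw [if_pos hc0]
  · intro f _ hf
    rw [if_neg]
    intro hc
    apply hf
    ext v
    have ha := hc.2.2 v
    have hb := hc0.2.2 v
    exact (L v).injective (ha.trans hb.symm)
  · intro h
    exact absurd (Finset.mem_univ _) h

theorem Ssum_top_eq {V : Type} [Fintype V] [DecidableEq V] (z0 c1 : V) (h01 : z0 ≠ c1) :
    Ssum (⊤ : SimpleGraph V) (fun _ _ => z0) = ∑ f : Perm V, SS z0 c1 f := by
  classical
  unfold SS Ssum
  rw [Finset.sum_comm]
  apply Finset.sum_congr rfl
  intro L _
  by_cases h : (∀ v u, L v u = L u v) ∧ (∀ v u, ¬ (⊤ : SimpleGraph V).Adj v u → L v u = z0)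
  · rw [if_pos h]
    have h2 : ∀ v, L v v = z0 := fun v => h.2 v v (by simp)
    exact (sum_perm z0 c1 h01 L h.1 h2).symm
  · rw [if_neg h]
    symm
    apply Finset.sum_eq_zero
    intro f _
    rw [if_neg]
    intro hc
    apply h
    refine ⟨hc.1, fun v u hvu => ?_⟩
    have : v = u := by
      by_contra hne
      exact hvu hne
    subst this
    exact hc.2.1 v

/-- the exchange of the two copies -/
def f0 (p : ℕ) : Perm (ZMod p × Bool) where
  toFun x := (x.1, !x.2)
  invFun x := (x.1, !x.2)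
  left_inv x := by simp
  right_inv x := by simp

theorem f0_fpf (p : ℕ) : FPF (f0 p) := by
  refine ⟨fun v => ?_, fun v h => ?_⟩
  · simp [f0]
  · have := congrArg Prod.snd h
    simp [f0] at this

theorem Ssum_gD_eq (p : ℕ) [NeZero p] :
    Ssum (gD p (Finset.univ.erase 0)) (gGam p 1) = SS (1, true) (0, true) (f0 p) := by
  classical
  unfold SS Ssum
  apply Finset.sum_congr rfl
  intro L _
  have hadj : ∀ v u : ZMod p × Bool, ¬ (gD p (Finset.univ.erase 0)).Adj v u ↔
      v = u ∨ u = f0 p v := by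
    intro v u
    obtain ⟨v, a⟩ := v
    obtain ⟨u, b⟩ := u
    simp only [gD, f0, Equiv.coe_fn_mk, Prod.mk.injEq, Finset.mem_erase, Finset.mem_univ,
      and_true, ne_eq, sub_eq_zero]
    cases a <;> cases b <;> simp [eq_comm]
  have hiff : ((∀ v u, L v u = L u v) ∧
      (∀ v u, ¬ (gD p (Finset.univ.erase 0)).Adj v u → L v u = gGam p 1 v u)) ↔
      Cond (1, true) (0, true) (f0 p) L := by
    unfold Cond
    constructor
    · rintro ⟨h1, h2⟩
      refine ⟨h1, fun v => ?_, fun v => ?_⟩
      · rw [h2 v v ((hadj v v).mpr (Or.inl rfl))]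
        simp [gGam]
      · rw [h2 v _ ((hadj v _).mpr (Or.inr rfl))]
        have hne : v ≠ f0 p v := fun h => (f0_fpf p).2 v h.symm
        unfold gGam
        rw [if_neg hne]
        simp [f0]
    · rintro ⟨h1, h2, h3⟩
      refine ⟨h1, fun v u hvu => ?_⟩
      rcases (hadj v u).mp hvu with h | h
      · subst h
        rw [h2]
        simp [gGam]
      · subst h
        rw [h3]
        have hne : v ≠ f0 p v := fun h => (f0_fpf p).2 v h.symm
        unfold gGam
        rw [if_neg hne]
        simp [f0]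
  by_cases h : Cond (1, true) (0, true) (f0 p) L
  · rw [if_pos h, if_pos (hiff.mpr h)]
    rfl
  · rw [if_neg h, if_neg (fun hh => h (hiff.mp hh))]

end TwoP

open TwoP in
/-- all the graphs `K_V - F`, `F` a perfect matching, have the same signed sum, and the sums add
up to the signed sum of `K_V`. -/
theorem Ssum_top (p : ℕ) [Fact p.Prime] (hp : p ≠ 2)
    (h : Ssum (gD p (Finset.univ.erase 0)) (gGam p 1) ≠ 0) :
    Ssum (⊤ : SimpleGraph (ZMod p × Bool)) (fun _ _ => (1, true)) ≠ 0 := by
  classical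
  have hp1 : 1 < p := (Fact.out : p.Prime).one_lt
  haveI : Fact (1 < p) := ⟨hp1⟩
  have h01 : ((1 : ZMod p), true) ≠ (0, true) := by
    intro hh
    exact one_ne_zero (congrArg Prod.fst hh)
  have hV : Even (Fintype.card (ZMod p × Bool)) := by
    rw [Fintype.card_prod, Fintype.card_bool]
    exact ⟨Fintype.card (ZMod p), by ring⟩
  rw [Ssum_top_eq (1, true) (0, true) h01]
  have h2 : ∀ f : Perm (ZMod p × Bool), SS ((1 : ZMod p), true) (0, true) f =
      if FPF f then SS ((1 : ZMod p), true) (0, true) (f0 p) else 0 := by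
    intro f
    by_cases hf : FPF f
    · rw [if_pos hf]
      exact SS_fpf _ _ f (f0 p) hf (f0_fpf p) hV
    · rw [if_neg hf]
      exact SS_not_fpf _ _ h01 f hf
  rw [Finset.sum_congr rfl (fun f _ => h2 f), ← Finset.sum_filter, Finset.sum_const,
    nsmul_eq_mul]
  rw [← Ssum_gD_eq]
  apply mul_ne_zero _ h
  rw [Nat.cast_ne_zero]
  apply Finset.card_ne_zero_of_mem (a := f0 p)
  simp [f0_fpf]

end Pool.Agent.H921R2.LEC
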