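import Mathlib

set_option autoImplicit false

/-! Basic definitions for the list edge colouring project (complete graphs `K_{p-1}`, `K_{2p}`). -/

namespace Pool.Agent.H921R2.LEC

open Equiv Equiv.Perm

/-- `G` is edge-choosable from all lists of size at least `d`. -/
def Choosable {V : Type} (G : SimpleGraph V) (d : ℕ) : Prop :=
  ∀ L : G.edgeSet → Finset ℕ, (∀ e, d ≤ (L e).card) →
    ∃ f : G.edgeSet → ℕ, (∀ e, f e ∈ L e) ∧
      ∀ e e', G.lineGraph.Adj e e' → f e ≠ f e'

/-- Signed indicator of bijectivity of a self-map: its sign if it is bijective, else `0`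
(the determinant of the `0/1` matrix of the map). -/
noncomputable def fs {α : Type} [Fintype α] [DecidableEq α] (f : α → α) : ℤ :=
  Matrix.det (fun i j => if f i = j then (1 : ℤ) else 0)

/-- the number of cycles of a permutation, fixed points included -/
noncomputable def cyc {X : Type} [Fintype X] (π : Perm X) : ℕ :=
  Nat.card (Quotient (SameCycle.setoid π))

open Classical in
/-- The permutation which acts as `θ` on `{x | α x = true}` and as the identity elsewhere
(if `θ` preserves `α`; otherwise the identity). -/
noncomputable def restr {D : Type} (α : D → Bool) (θ : Perm D) : Perm D :=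
  if h : ∀ x, α (θ x) = α x then
    { toFun := fun x => if α x = true then θ x else x
      invFun := fun x => if α x = true then θ.symm x else x
      left_inv := by
        intro x
        by_cases hx : α x = true
        · simp [hx, h]
        · simp [hx]
      right_inv := by
        intro x
        have h' : ∀ y, α (θ.symm y) = α y := by
          intro y
          have := h (θ.symm y)
          simpa using this.symm
        by_cases hx : α x = true
        · simp [hx, h']
        · simp [hx] }
  else 1

/-- sign of `θ` restricted to `{x | α x = true}` -/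
noncomputable def sO {D : Type} [Fintype D] [DecidableEq D] (α : D → Bool) (θ : Perm D) : ℤ :=
  ((sign (restr α θ) : ℤˣ) : ℤ)

/-- the darts of the complete graph on `V` -/
abbrev Dart (V : Type) : Type := {x : V × V // x.1 ≠ x.2}

/-- Signed sum over all symmetric families of rows `L v : Perm V` extending the prescribed
entries `γ v u` (`u` not adjacent to `v`, in particular `u = v`). -/
noncomputable def Ssum {V : Type} [Fintype V] [DecidableEq V] (G : SimpleGraph V)
    [DecidableRel G.Adj] (γ : V → V → V) : ℤ :=
  ∑ L : V → Perm V,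
    if (∀ v u, L v u = L u v) ∧ (∀ v u, ¬ G.Adj v u → L v u = γ v u) then
      ∏ v, ((sign (L v) : ℤˣ) : ℤ) else 0

/-- Signed number of starters of `ZMod p`: bijections `u` of `ZMod p` with `u 0 = 0` and
`u d - u (-d) = d`. -/
noncomputable def Tst (p : ℕ) [NeZero p] : ℤ :=
  ∑ u : Perm (ZMod p), if u 0 = 0 ∧ (∀ d, u d - u (-d) = d) then ((sign u : ℤˣ) : ℤ) else 0

/-! ### data for the complete graph on `Fin r × Bool` -/

/-- the partner of a vertex -/
def star {r : ℕ} (v : Fin r × Bool) : Fin r × Bool := (v.1, !v.2)

/-- reversal of darts -/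
def tau (V : Type) : Perm (Dart V) where
  toFun x := ⟨(x.1.2, x.1.1), fun h => x.2 h.symm⟩
  invFun x := ⟨(x.1.2, x.1.1), fun h => x.2 h.symm⟩
  left_inv x := by rfl
  right_inv x := by rfl

/-- action of a vertex permutation on darts -/
def qd {V : Type} (g : Perm V) : Perm (Dart V) where
  toFun x := ⟨(g x.1.1, g x.1.2), fun h => x.2 (g.injective h)⟩
  invFun x := ⟨(g.symm x.1.1, g.symm x.1.2), fun h => x.2 (g.symm.injective h)⟩
  left_inv x := by simp
  right_inv x := by simp

theorem star_star {r : ℕ} (v : Fin r × Bool) : star (star v) = v := by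
  simp [star]

theorem star_ne {r : ℕ} (v : Fin r × Bool) : star v ≠ v := by
  intro h
  have := congrArg Prod.snd h
  simp [star] at this

/-- the reference pairing of the darts at `v` with the darts at `star v`:
`(v, u) ↦ (star v, swap v (star v) u)`. -/
def rho (r : ℕ) : Perm (Dart (Fin r × Bool)) where
  toFun x := ⟨(star x.1.1, swap x.1.1 (star x.1.1) x.1.2), by
    intro h
    apply x.2
    have h2 := congrArg (swap x.1.1 (star x.1.1)) h
    simpa using h2⟩
  invFun x := ⟨(star x.1.1, swap x.1.1 (star x.1.1) x.1.2), by
    intro h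
    apply x.2
    have h2 := congrArg (swap x.1.1 (star x.1.1)) h
    simpa using h2⟩
  left_inv x := by
    apply Subtype.ext
    simp only [star_star]
    rw [swap_comm (star x.1.1) x.1.1]
    simp
  right_inv x := by
    apply Subtype.ext
    simp only [star_star]
    rw [swap_comm (star x.1.1) x.1.1]
    simp

/-- the darts at the vertices `(i, false)` -/
def Tb {r : ℕ} (x : Dart (Fin r × Bool)) : Bool := !x.1.1.2

open Classical in
/-- the pairings of the darts: involutions which map the darts at `v` to the darts at `star v` -/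
noncomputable def pairings (r : ℕ) : Finset (Perm (Dart (Fin r × Bool))) :=
  Finset.univ.filter fun Φ => (∀ x, Φ (Φ x) = x) ∧ ∀ x, (Φ x).1.1 = star x.1.1

/-- the signed pairing sum: `sum over pairings Φ of sg Φ * #{(2r-1)-colourings of the darts
constant on the orbits of tau and Φ}` -/
noncomputable def pairSum (r : ℕ) : ℤ :=
  ∑ Φ ∈ pairings r, sO Tb (rho r * Φ) *
    (Nat.card {c : Dart (Fin r × Bool) → Fin (2 * r - 1) //
      (∀ x, c (tau _ x) = c x) ∧ (∀ x, c (Φ x) = c x)} : ℤ)

/-! ### circulant graphs -/

/-- two copies of the complete graph on `ZMod p`, joined by the circulant bipartite graph `D` -/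
def gD (p : ℕ) (D : Finset (ZMod p)) : SimpleGraph (ZMod p × Bool) where
  Adj x y := x ≠ y ∧ (x.2 = y.2 ∨ (x.2 = false ∧ y.2 = true ∧ y.1 - x.1 ∈ D) ∨
    (x.2 = true ∧ y.2 = false ∧ x.1 - y.1 ∈ D))
  symm := by
    constructor
    intro x y h
    refine ⟨h.1.symm, ?_⟩
    rcases h.2 with h | h | h
    · exact Or.inl h.symm
    · exact Or.inr (Or.inr ⟨h.2.1, h.1, h.2.2⟩)
    · exact Or.inr (Or.inl ⟨h.2.1, h.1, h.2.2⟩)
  loopless := ⟨fun x h => h.1 rfl⟩

instance (p : ℕ) (D : Finset (ZMod p)) [NeZero p] : DecidableRel (gD p D).Adj :=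
  fun x y => by unfold gD; infer_instance

/-- prescribed entries for `gD`: the diagonal gets the colour `(d0, true)`, a missing edge
`(x, false)`-`(x + b, true)` gets the colour `(b, true)` -/
def gGam (p : ℕ) (d0 : ZMod p) : (ZMod p × Bool) → (ZMod p × Bool) → (ZMod p × Bool) :=
  fun v u => if v = u then (d0, true) else
    if v.2 = false then (u.1 - v.1, true) else (v.1 - u.1, true)

/-- the rotation `(x, b) ↦ (x + 1, b)` of the vertices -/
def rot (p : ℕ) : Perm (ZMod p × Bool) where
  toFun x := (x.1 + 1, x.2)
  invFun x := (x.1 - 1, x.2)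
  left_inv x := by simp
  right_inv x := by simp

/-- the permutation of the colours `(t, false) ↦ (t + 1, false)`, `(t, true) ↦ (t, true)` -/
def rotC (p : ℕ) : Perm (ZMod p × Bool) where
  toFun x := if x.2 = false then (x.1 + 1, false) else x
  invFun x := if x.2 = false then (x.1 - 1, false) else x
  left_inv x := by rcases x with ⟨x, b⟩; cases b <;> simp
  right_inv x := by rcases x with ⟨x, b⟩; cases b <;> simp

open Classical in
/-- the part of `Ssum (gD p D) (gGam p d0)` coming from the rotation invariant families -/
noncomputable def S1 (p : ℕ) [NeZero p] (D : Finset (ZMod p)) (d0 : ZMod p) : ℤ :=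
  ∑ L : (ZMod p × Bool) → Perm (ZMod p × Bool),
    if ((∀ v u, L v u = L u v) ∧ (∀ v u, ¬ (gD p D).Adj v u → L v u = gGam p d0 v u)) ∧
      (∀ v u, L (rot p v) (rot p u) = rotC p (L v u)) then
      ∏ v, ((sign (L v) : ℤˣ) : ℤ) else 0

/-- the list edge colouring conjecture for one graph -/
def ListEdge {V : Type} (G : SimpleGraph V) : Prop :=
  ∀ k : ℕ, G.lineGraph.Colorable k ↔ Choosable G k

end Pool.Agent.H921R2.LEC
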