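import Pool.Agent.H921R2.LEC.Defs

set_option autoImplicit false

/-! Alon-Tarsi criterion for regular graphs, abstract form. -/

namespace Pool.Agent.H921R2.LEC

open Equiv Equiv.Perm

/-- values of `fs` -/
theorem fs_bij {α : Type} [Fintype α] [DecidableEq α] (f : α → α) (h : Function.Bijective f) :
    fs f = ((sign (Equiv.ofBijective f h) : ℤˣ) : ℤ) := by
  have h1 := Matrix.det_permutation (Equiv.ofBijective f h) (R := ℤ)
  rw [Int.cast_id] at h1
  rw [← h1, fs]
  congr 1
  ext i j
  simp [Equiv.Perm.permMatrix, PEquiv.toMatrix_apply, Equiv.toPEquiv_apply]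

theorem fs_not_inj {α : Type} [Fintype α] [DecidableEq α] (f : α → α)
    (h : ¬ Function.Injective f) : fs f = 0 := by
  rw [Function.not_injective_iff] at h
  obtain ⟨i, j, hij, hne⟩ := h
  rw [fs]
  apply Matrix.det_zero_of_row_eq hne
  ext k
  simp [hij]

lemma fs_cast {α : Type} [Fintype α] [DecidableEq α] (f : α → α) :
    ((fs f : ℤ) : ℚ) = Matrix.det (Matrix.of fun i j => if f i = j then (1 : ℚ) else 0) := by
  change (((Matrix.of fun i j => if f i = j then (1 : ℤ) else 0).det : ℤ) : ℚ) = _
  have := (Int.castRingHom ℚ).map_det (Matrix.of fun i j => if f i = j then (1 : ℤ) else 0)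
  rw [eq_intCast] at this
  rw [this]
  congr 1
  ext i j
  rw [RingHom.mapMatrix_apply, Matrix.map_apply, Matrix.of_apply, Matrix.of_apply]
  split_ifs <;> simp

lemma vander_comp (d : ℕ) (a : Fin d → ℚ) (g : Fin d → Fin d) :
    (Matrix.vandermonde (fun k => a (g k))).det =
      ((fs g : ℤ) : ℚ) * (Matrix.vandermonde a).det := by
  rw [fs_cast, ← Matrix.det_mul]
  congr 1
  ext i j
  rw [Matrix.mul_apply]
  simp [Matrix.vandermonde_apply]

/-- the weights -/
def wt (d : ℕ) (a : ℕ) : ℚ := ((((-1 : ℤ) ^ (d - 1 - a) * ((d - 1).choose a : ℕ) : ℤ)) : ℚ)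

lemma wt_ne (d : ℕ) (a : Fin d) : wt d a ≠ 0 := by
  unfold wt
  have : (d - 1).choose a ≠ 0 := by
    have := a.2
    exact (Nat.choose_pos (by omega)).ne'
  simp [this]

lemma wt_mom (d s : ℕ) (hs : s < d - 1) : ∑ a : Fin d, wt d a * (a : ℚ) ^ s = 0 := by
  have h1 := fwdDiff_iter_pow_eq_zero_of_lt (R := ℚ) hs
  have h2 := fwdDiff_iter_eq_sum_shift (h := (1 : ℚ)) (fun r : ℚ => r ^ s) (d - 1) 0
  rw [h1] at h2
  simp only [Pi.zero_apply, zero_add, nsmul_eq_mul, mul_one, zsmul_eq_mul] at h2
  rw [Fin.sum_univ_eq_sum_range (fun a : ℕ => wt d a * (a : ℚ) ^ s) d]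
  rw [h2, show d - 1 + 1 = d by omega]
  rfl

/-- Alon-Tarsi criterion for regular graphs, abstract form: `e v : Fin d → E` enumerates the
edges at `v`, every edge is hit exactly twice. -/
theorem at_criterion {V E : Type} [Fintype V] [Fintype E] [DecidableEq E] (d : ℕ)
    (e : V → Fin d → E)
    (htwo : ∀ x : E, (Finset.univ.filter (fun q : V × Fin d => e q.1 q.2 = x)).card = 2)
    (hS : ∑ c : E → Fin d, ∏ v, fs (fun k => c (e v k)) ≠ 0)
    (L : E → Finset ℕ) (hL : ∀ x, d ≤ (L x).card) :
    ∃ f : E → ℕ, (∀ x, f x ∈ L x) ∧ ∀ v, Function.Injective (fun k => f (e v k)) := by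
  classical
  -- counting
  have hcount : Fintype.card V * d = 2 * Fintype.card E := by
    have h1 : (Finset.univ : Finset (V × Fin d)).card =
        ∑ x : E, (Finset.univ.filter (fun q : V × Fin d => e q.1 q.2 = x)).card :=
      Finset.card_eq_sum_card_fiberwise (fun q _ => Finset.mem_univ _)
    rw [Finset.card_univ, Fintype.card_prod, Fintype.card_fin,
      Finset.sum_congr rfl (fun x _ => htwo x), Finset.sum_const, Finset.card_univ,
      smul_eq_mul] at h1
    omega
  rcases Nat.eq_zero_or_pos d with hd | hd
  · subst hd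
    have hE : IsEmpty E := by
      rw [← Fintype.card_eq_zero_iff]
      omega
    exact ⟨fun x => hE.elim x, fun x => hE.elim x, fun v => fun i => Fin.elim0 i⟩
  set m := Fintype.card E with hm
  set P : MvPolynomial E ℚ := ∏ v : V, ∏ i : Fin d, ∏ j ∈ Finset.Ioi i,
    (MvPolynomial.X (e v j) - MvPolynomial.X (e v i)) with hP
  have hPdeg : P.totalDegree ≤ m * (d - 1) := by
    have h1 : ∀ v : V, ∀ i : Fin d, (∏ j ∈ Finset.Ioi i,
        (MvPolynomial.X (e v j) - MvPolynomial.X (e v i) : MvPolynomial E ℚ)).totalDegree ≤
        d - 1 - i := by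
      intro v i
      refine (MvPolynomial.totalDegree_finsetProd _ _).trans ?_
      calc _ ≤ ∑ j ∈ Finset.Ioi i, 1 := by
            apply Finset.sum_le_sum
            intro j _
            refine (MvPolynomial.totalDegree_sub _ _).trans ?_
            simp
        _ = d - 1 - i := by simp [Fin.card_Ioi]
    have h2 : P.totalDegree ≤ ∑ v : V, ∑ i : Fin d, (d - 1 - (i : ℕ)) := by
      refine (MvPolynomial.totalDegree_finsetProd _ _).trans ?_
      apply Finset.sum_le_sum
      intro v _
      refine (MvPolynomial.totalDegree_finsetProd _ _).trans ?_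
      exact Finset.sum_le_sum fun i _ => h1 v i
    have h3 : (∑ i : Fin d, (d - 1 - (i : ℕ))) * 2 = d * (d - 1) := by
      rw [Fin.sum_univ_eq_sum_range (fun i => d - 1 - i) d,
        Finset.sum_range_reflect (fun i => i) d, Finset.sum_range_id_mul_two]
    rw [Finset.sum_const, Finset.card_univ, smul_eq_mul] at h2
    have h4 : Fintype.card V * (∑ i : Fin d, (d - 1 - (i : ℕ))) * 2 = 2 * (m * (d - 1)) := by
      rw [mul_assoc, h3, ← mul_assoc, hcount]; ring
    omega
  set t : E →₀ ℕ := Finsupp.equivFunOnFinite.symm (fun _ => d - 1) with ht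
  have htdeg : t.degree = m * (d - 1) := by
    rw [Finsupp.degree_eq_sum]
    simp [ht, hm]
  -- the functional
  have hLam : ∑ x : E → Fin d, (∏ y, wt d (x y)) *
      MvPolynomial.eval (fun y => ((x y : ℕ) : ℚ)) P ≠ 0 := by
    set V0 := (Matrix.vandermonde (fun k : Fin d => ((k : ℕ) : ℚ))).det with hV0
    have hV0ne : V0 ≠ 0 := by
      rw [hV0, Ne, Matrix.det_vandermonde_eq_zero_iff]
      push Not
      intro i j hij
      exact Fin.ext (by exact_mod_cast hij)
    have hev : ∀ x : E → Fin d, MvPolynomial.eval (fun y => ((x y : ℕ) : ℚ)) P =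
        (∏ v, ((fs (fun k => x (e v k)) : ℤ) : ℚ)) * V0 ^ (Fintype.card V) := by
      intro x
      rw [hP, map_prod, ← Finset.card_univ, ← Finset.prod_const, ← Finset.prod_mul_distrib]
      apply Finset.prod_congr rfl
      intro v _
      rw [← vander_comp d (fun k : Fin d => ((k : ℕ) : ℚ)) (fun k => x (e v k)),
        Matrix.det_vandermonde, map_prod]
      apply Finset.prod_congr rfl
      intro i _
      rw [map_prod]
      apply Finset.prod_congr rfl
      intro j _
      simp
    have hw : ∀ x : E → Fin d, (∏ y, wt d (x y)) * (∏ v, ((fs (fun k => x (e v k)) : ℤ) : ℚ)) =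
        (∏ a : Fin d, wt d a ^ (Fintype.card V / 2)) *
          (∏ v, ((fs (fun k => x (e v k)) : ℤ) : ℚ)) := by
      intro x
      by_cases hx : ∀ v, Function.Injective (fun k => x (e v k))
      · congr 1
        have hfib : ∀ a : Fin d, (Finset.univ.filter fun y => x y = a).card =
            Fintype.card V / 2 := by
          intro a
          have h1 : (Finset.univ.filter (fun q : V × Fin d => x (e q.1 q.2) = a)).card =
              ∑ y ∈ (Finset.univ.filter fun y => x y = a),
                (Finset.univ.filter (fun q : V × Fin d => e q.1 q.2 = y)).card := by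
            rw [Finset.card_eq_sum_card_fiberwise
              (t := Finset.univ.filter fun y => x y = a) (f := fun q : V × Fin d => e q.1 q.2)]
            · apply Finset.sum_congr rfl
              intro y hy
              congr 1
              ext q
              simp only [Finset.mem_filter, Finset.mem_univ, true_and] at hy ⊢
              constructor
              · exact fun h => h.2
              · intro h
                exact ⟨by rw [h]; exact hy, h⟩
            · intro q hq
              simpa using hq
          rw [Finset.sum_congr rfl (fun y _ => htwo y), Finset.sum_const, smul_eq_mul] at h1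
          have h2 : (Finset.univ.filter (fun q : V × Fin d => x (e q.1 q.2) = a)).card =
              Fintype.card V := by
            rw [← Finset.card_univ]
            symm
            apply Finset.card_bij (fun v _ =>
              (v, (Equiv.ofBijective _ (Finite.injective_iff_bijective.1 (hx v))).symm a))
            · intro v _
              simp only [Finset.mem_filter, Finset.mem_univ, true_and]
              exact Equiv.ofBijective_apply_symm_apply _
                (Finite.injective_iff_bijective.1 (hx v)) a
            · intro v _ w _ h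
              exact (Prod.ext_iff.1 h).1
            · rintro ⟨v, k⟩ hq
              simp only [Finset.mem_filter, Finset.mem_univ, true_and] at hq
              refine ⟨v, Finset.mem_univ _, ?_⟩
              rw [Prod.mk.injEq]
              refine ⟨rfl, ?_⟩
              rw [Equiv.symm_apply_eq]
              exact hq.symm
          omega
        rw [← Finset.prod_fiberwise' (s := (Finset.univ : Finset E)) (g := x)
          (f := fun a : Fin d => wt d a)]
        apply Finset.prod_congr rfl
        intro a _
        rw [Finset.prod_const, hfib a]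
      · push Not at hx
        obtain ⟨v, hv⟩ := hx
        have : ∏ v, ((fs (fun k => x (e v k)) : ℤ) : ℚ) = 0 := by
          apply Finset.prod_eq_zero (Finset.mem_univ v)
          rw [fs_not_inj _ hv]; simp
        rw [this, mul_zero, mul_zero]
    have h5 : ∑ x : E → Fin d, (∏ y, wt d (x y)) *
        MvPolynomial.eval (fun y => ((x y : ℕ) : ℚ)) P =
        (∏ a : Fin d, wt d a ^ (Fintype.card V / 2)) * V0 ^ (Fintype.card V) *
          (((∑ c : E → Fin d, ∏ v, fs (fun k => c (e v k)) : ℤ)) : ℚ) := by
      push_cast
      rw [Finset.mul_sum]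
      apply Finset.sum_congr rfl
      intro x _
      rw [hev, ← mul_assoc, hw]; ring
    rw [h5]
    apply mul_ne_zero
    · apply mul_ne_zero
      · rw [Finset.prod_ne_zero_iff]
        intro a _
        exact pow_ne_zero _ (wt_ne d a)
      · exact pow_ne_zero _ hV0ne
    · exact_mod_cast hS
  have hcoeff : P.coeff t ≠ 0 := by
    intro h0
    apply hLam
    have h1 : ∀ x : E → Fin d, (∏ y, wt d (x y)) *
        MvPolynomial.eval (fun y => ((x y : ℕ) : ℚ)) P =
        ∑ s ∈ P.support, P.coeff s * ∏ y, (wt d (x y) * ((x y : ℕ) : ℚ) ^ s y) := by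
      intro x
      rw [MvPolynomial.eval_eq', Finset.mul_sum]
      apply Finset.sum_congr rfl
      intro s _
      rw [Finset.prod_mul_distrib]; ring
    rw [Finset.sum_congr rfl (fun x _ => h1 x), Finset.sum_comm]
    apply Finset.sum_eq_zero
    intro s hs
    rw [← Finset.mul_sum]
    have h2 : ∑ x : E → Fin d, ∏ y, (wt d (x y) * ((x y : ℕ) : ℚ) ^ s y) =
        ∏ y, ∑ a : Fin d, wt d a * ((a : ℕ) : ℚ) ^ s y := by
      rw [Finset.prod_univ_sum, Fintype.piFinset_univ]
    rw [h2]
    by_cases hall : ∀ y, d - 1 ≤ s y
    · exfalso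
      have hsdeg : s.degree ≤ m * (d - 1) :=
        (MvPolynomial.le_totalDegree hs).trans hPdeg
      rw [Finsupp.degree_eq_sum] at hsdeg
      have heq : ∀ y, s y = d - 1 := by
        by_contra hcon
        push Not at hcon
        obtain ⟨y, hy⟩ := hcon
        have hlt : ∑ y : E, (d - 1) < ∑ y : E, s y := by
          apply Finset.sum_lt_sum (fun y _ => hall y)
          exact ⟨y, Finset.mem_univ _, lt_of_le_of_ne (hall y) (Ne.symm hy)⟩
        rw [Finset.sum_const, Finset.card_univ, smul_eq_mul, ← hm] at hlt
        exact absurd hsdeg (not_le.2 hlt)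
      have hst : s = t := by
        ext y
        rw [heq y]
        simp [ht]
      rw [hst] at hs
      exact (MvPolynomial.mem_support_iff.1 hs) h0
    · push Not at hall
      obtain ⟨y, hy⟩ := hall
      rw [Finset.prod_eq_zero (Finset.mem_univ y) (wt_mom d (s y) hy), mul_zero]
  have htot : P.totalDegree = t.degree := by
    apply le_antisymm
    · rw [htdeg]; exact hPdeg
    · exact MvPolynomial.le_totalDegree (MvPolynomial.mem_support_iff.2 hcoeff)
  obtain ⟨s, hs1, hs2⟩ := MvPolynomial.combinatorial_nullstellensatz_exists_eval_nonzero P t hcoeff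
    htot (fun y => (L y).image (fun k : ℕ => (k : ℚ))) (by
      intro y
      rw [Finset.card_image_of_injective _ Nat.cast_injective]
      have : t y = d - 1 := by simp [ht]
      rw [this]
      have := hL y
      omega)
  have hs3 : ∀ y, ∃ k ∈ L y, (k : ℚ) = s y := fun y => by
    have := hs1 y
    rw [Finset.mem_image] at this
    exact this
  choose f hf1 hf2 using hs3
  refine ⟨f, hf1, ?_⟩
  intro v
  rw [hP, map_prod] at hs2
  have hs4 := (Finset.prod_ne_zero_iff.1 hs2) v (Finset.mem_univ _)
  rw [map_prod] at hs4
  have key : ∀ i j : Fin d, i < j → f (e v i) ≠ f (e v j) := by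
    intro i j hij heq
    have h1 := (Finset.prod_ne_zero_iff.1 hs4) i (Finset.mem_univ _)
    rw [map_prod] at h1
    have h2 := (Finset.prod_ne_zero_iff.1 h1) j (Finset.mem_Ioi.2 hij)
    apply h2
    rw [map_sub, MvPolynomial.eval_X, MvPolynomial.eval_X, ← hf2, ← hf2, heq, sub_self]
  intro i j hij
  by_contra hne
  rcases lt_or_gt_of_ne hne with h | h
  · exact key i j h hij
  · exact key j i h hij.symm

end Pool.Agent.H921R2.LEC
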