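import Pool.Agent.H921R2.LEC.Defs

set_option autoImplicit false

/-! Blueprint (statements only) of the list edge colouring project. -/

namespace Pool.Agent.H921R2.LEC.Blueprint

open Equiv Equiv.Perm

/- ===== A : AT.lean ===== -/

/-- values of `fs` -/
theorem fs_bij {α : Type} [Fintype α] [DecidableEq α] (f : α → α) (h : Function.Bijective f) :
    fs f = ((sign (Equiv.ofBijective f h) : ℤˣ) : ℤ) := by sorry

theorem fs_not_inj {α : Type} [Fintype α] [DecidableEq α] (f : α → α)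
    (h : ¬ Function.Injective f) : fs f = 0 := by sorry

/-- Alon-Tarsi criterion for regular graphs, abstract form: `e v : Fin d → E` enumerates the
edges at `v`, every edge is hit exactly twice. -/
theorem at_criterion {V E : Type} [Fintype V] [Fintype E] [DecidableEq E] (d : ℕ)
    (e : V → Fin d → E)
    (htwo : ∀ x : E, (Finset.univ.filter (fun q : V × Fin d => e q.1 q.2 = x)).card = 2)
    (hS : ∑ c : E → Fin d, ∏ v, fs (fun k => c (e v k)) ≠ 0)
    (L : E → Finset ℕ) (hL : ∀ x, d ≤ (L x).card) :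
    ∃ f : E → ℕ, (∀ x, f x ∈ L x) ∧ ∀ v, Function.Injective (fun k => f (e v k)) := by
  sorry

/- ===== B : Bridge.lean ===== -/

/-- If the signed sum of the extensions of the prescribed entries is non-zero, then the
`d`-regular graph `G` is `d`-edge-choosable. The prescribed entries at `v` form a bijection from
the non-neighbours of `v` (including `v`) onto a fixed set `C0` of colours. -/
theorem bridge {V : Type} [Fintype V] [DecidableEq V] (G : SimpleGraph V)
    [DecidableRel G.Adj] (d : ℕ) (hreg : G.IsRegularOfDegree d) (γ : V → V → V)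
    (C0 : Finset V) (hγ : ∀ v, Set.BijOn (γ v) {u | ¬ G.Adj v u} (C0 : Set V))
    (hne : Ssum G γ ≠ 0) : Choosable G d := by
  sorry

/- ===== C : Cyc.lean ===== -/

theorem card_invariant {X : Type} [Fintype X] (π : Perm X) (N : ℕ) :
    Nat.card {f : X → Fin N // ∀ x, f (π x) = f x} = N ^ cyc π := by
  sorry

theorem sign_eq_cyc {X : Type} [Fintype X] [DecidableEq X] (π : Perm X) :
    ((sign π : ℤˣ) : ℤ) = (-1) ^ (Fintype.card X + cyc π) := by
  sorry

/- ===== D : TwoInv.lean ===== -/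

open Classical in
/-- Two fixed point free involutions `τ`, `Φ`: modulo `p` with `N = -2`, the number of
`N`-colourings of `D` constant on the orbits is a signed count of coherent orientations. -/
theorem two_involutions {D : Type} [Fintype D] [DecidableEq D] (τ Φ : Perm D)
    (hτ : ∀ x, τ (τ x) = x) (hτ' : ∀ x, τ x ≠ x) (hΦ : ∀ x, Φ (Φ x) = x)
    (hΦ' : ∀ x, Φ x ≠ x) (p N : ℕ) (hN : ((N : ℤ) : ZMod p) = -2) :
    ((Nat.card {c : D → Fin N // (∀ x, c (τ x) = c x) ∧ (∀ x, c (Φ x) = c x)} : ℤ) : ZMod p) =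
      (-1) ^ (Fintype.card D / 2) *
        ∑ α : D → Bool,
          if (∀ x, α (τ x) = !α x) ∧ (∀ x, α (Φ x) = !α x) then
            ((sO α (Φ * τ) : ℤ) : ZMod p) else 0 := by
  sorry

/- ===== E : Starter.lean ===== -/

theorem Tst_ne (p : ℕ) [Fact p.Prime] (hp : p ≠ 2) : ((Tst p : ℤ) : ZMod p) ≠ 0 := by
  sorry

/- ===== F1 : CircA.lean ===== -/

theorem Ssum_gD_mod (p : ℕ) [Fact p.Prime] (hp : p ≠ 2) (D : Finset (ZMod p)) (d0 : ZMod p)
    (hd0 : d0 ∈ D) :
    (p : ℤ) ^ 2 ∣ Ssum (gD p D) (gGam p d0) - ((p : ℤ) - 1) * S1 p D d0 := by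
  sorry

/- ===== F2 : CircB.lean ===== -/

theorem S1_eq (p : ℕ) [Fact p.Prime] (hp : p ≠ 2) (D : Finset (ZMod p)) (d0 : ZMod p)
    (hd0 : d0 ∈ D) :
    ∃ ε : ℤ, (ε = 1 ∨ ε = -1) ∧ S1 p D d0 = ε * p * (D.card).factorial * Tst p ^ 2 := by
  sorry

/- ===== F3 : Circ.lean (easy, from E, F1, F2) ===== -/

theorem Ssum_gD (p : ℕ) [Fact p.Prime] (hp : p ≠ 2) (D : Finset (ZMod p)) (d0 : ZMod p)
    (hd0 : d0 ∈ D) (hD : D ≠ Finset.univ) :
    ¬ ((p : ℤ) ^ 2 ∣ Ssum (gD p D) (gGam p d0)) := by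
  sorry

/- ===== G : TwoP.lean ===== -/

/-- all the graphs `K_V - F`, `F` a perfect matching, have the same signed sum, and the sums add
up to the signed sum of `K_V`. -/
theorem Ssum_top (p : ℕ) [Fact p.Prime] (hp : p ≠ 2)
    (h : Ssum (gD p (Finset.univ.erase 0)) (gGam p 1) ≠ 0) :
    Ssum (⊤ : SimpleGraph (ZMod p × Bool)) (fun _ _ => (1, true)) ≠ 0 := by
  sorry

/- ===== H2 : Pairing.lean ===== -/

theorem choosable_of_pairSum (r : ℕ) (hr : 0 < r) (h : pairSum r ≠ 0) :
    Choosable (⊤ : SimpleGraph (Fin r × Bool)) (2 * r - 1) := by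
  sorry

/- ===== H3 : MinusTwo.lean (helper921) ===== -/

theorem pairSum_ne (r : ℕ) (hp : (2 * r + 1).Prime) :
    ((pairSum r : ℤ) : ZMod (2 * r + 1)) ≠ 0 := by
  sorry

/- ===== I : Final.lean ===== -/

/-- monotonicity: from the complete graph to all graphs with a dominating vertex -/
theorem listEdge_of_top (n : ℕ) (W : Type) [Fintype W] (hW : Fintype.card W = n)
    (h : Choosable (⊤ : SimpleGraph W) (n - 1)) (V : Type) [Fintype V] (hV : Fintype.card V = n)
    (G : SimpleGraph V) (hG : ∃ v, ∀ u, u ≠ v → G.Adj v u) : ListEdge G := by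
  sorry

theorem final1 (p : ℕ) (hp : p.Prime) (V : Type) [Fintype V] (hV : Fintype.card V + 1 = p)
    (G : SimpleGraph V) (hG : ∃ v, ∀ u, u ≠ v → G.Adj v u) : ListEdge G := by
  sorry

theorem final2 (p : ℕ) (hp : p.Prime) (V : Type) [Fintype V] (hV : Fintype.card V = 2 * p)
    (G : SimpleGraph V) (hG : ∃ v, ∀ u, u ≠ v → G.Adj v u) : ListEdge G := by
  sorry

theorem final3 (p : ℕ) [Fact p.Prime] (hp : p ≠ 2) (D : Finset (ZMod p)) (hD : D.Nonempty) :
    ListEdge (gD p D) := by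
  sorry

end Pool.Agent.H921R2.LEC.Blueprint
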